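import Pool.Agent.MP_1921ec_al.Defs

/-!
The subgroups generated by the elements `a_n ^ 1` or `a_n ^ 2` of a free family are pairwise not
commensurable.
-/

namespace Pool.Agent.MP_1921ec_al

/-- exponent -/
def ex (e : ℕ → Bool) (n : ℕ) : ℕ := if e n then 2 else 1

/-- swap -/
def px : Equiv.Perm (ℤ × ℤ) := Equiv.prodComm ℤ ℤ

/-- shear -/
def py : Equiv.Perm (ℤ × ℤ) where
  toFun p := (p.1 + p.2, p.2)
  invFun p := (p.1 - p.2, p.2)
  left_inv p := by simp
  right_inv p := by simp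

theorem px_sq : px ^ 2 = 1 := by
  ext p <;> simp [px, sq]

theorem py_pow_fix (n : ℕ) : (py ^ n) ((1, 0) : ℤ × ℤ) = (1, 0) := by
  induction n with
  | zero => rfl
  | succ n ih =>
    rw [pow_succ, Equiv.Perm.mul_apply]
    have : py ((1, 0) : ℤ × ℤ) = (1, 0) := by simp [py]
    rw [this, ih]

theorem pxpy_pow (N : ℕ) : 0 ≤ (((px * py ^ 2) ^ (N + 1)) ((1, 0) : ℤ × ℤ)).1 ∧
    0 < (((px * py ^ 2) ^ (N + 1)) ((1, 0) : ℤ × ℤ)).2 := by
  have hstep : ∀ p : ℤ × ℤ, (px * py ^ 2) p = (p.2, p.1 + 2 * p.2) := by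
    intro p
    rw [Equiv.Perm.mul_apply, sq, Equiv.Perm.mul_apply]
    simp [px, py]
    ring
  induction N with
  | zero =>
    rw [zero_add, pow_one, hstep]
    simp
  | succ N ih =>
    rw [pow_succ', Equiv.Perm.mul_apply, hstep]
    obtain ⟨h1, h2⟩ := ih
    refine ⟨h2.le, ?_⟩
    simp only
    linarith

theorem free_not_mem {e : ℕ → Bool} {i j : ℕ} (hi : e i = true) (hij : j ≠ i) {N : ℕ}
    (hN : 0 < N) : (FreeGroup.of i * FreeGroup.of j ^ 2) ^ N ∉
      Subgroup.closure (Set.range fun n => FreeGroup.of n ^ ex e n) := by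
  intro hmem
  let ψ : FreeGroup ℕ →* Equiv.Perm (ℤ × ℤ) :=
    FreeGroup.lift fun n => if n = i then px else if n = j then py else 1
  have hle : Subgroup.closure (Set.range fun n => FreeGroup.of n ^ ex e n) ≤
      (MulAction.stabilizer (Equiv.Perm (ℤ × ℤ)) ((1, 0) : ℤ × ℤ)).comap ψ := by
    rw [Subgroup.closure_le]
    rintro _ ⟨n, rfl⟩
    change ψ (FreeGroup.of n ^ ex e n) • ((1, 0) : ℤ × ℤ) = (1, 0)
    rw [map_pow, FreeGroup.lift_apply_of]
    split_ifs with h1 h2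
    · rw [h1, ex, hi, if_pos rfl, px_sq]
      rfl
    · rw [Equiv.Perm.smul_def]
      exact py_pow_fix _
    · rw [one_pow]
      rfl
  have h2 : ψ ((FreeGroup.of i * FreeGroup.of j ^ 2) ^ N) • ((1, 0) : ℤ × ℤ) = (1, 0) := hle hmem
  rw [map_pow, map_mul, map_pow, FreeGroup.lift_apply_of, FreeGroup.lift_apply_of, if_pos rfl,
    if_neg hij, if_pos rfl, Equiv.Perm.smul_def] at h2
  obtain ⟨M, rfl⟩ : ∃ M, N = M + 1 := ⟨N - 1, by omega⟩
  have h3 := (pxpy_pow M).2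
  rw [h2] at h3
  exact lt_irrefl _ h3

variable (a : ℕ → SL2C)

/-- the group generated by `a_n` or `a_n ^ 2` -/
def FF (e : ℕ → Bool) : Subgroup SL2C := Subgroup.closure (Set.range fun n => a n ^ ex e n)

theorem FF_eq_map (e : ℕ → Bool) : FF a e =
    (Subgroup.closure (Set.range fun n => FreeGroup.of n ^ ex e n)).map (FreeGroup.lift a) := by
  rw [MonoidHom.map_closure, ← Set.range_comp, FF]
  congr 1
  congr 1
  ext n : 1
  simp

theorem sq_mem_FF (e : ℕ → Bool) (n : ℕ) : a n ^ 2 ∈ FF a e := by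
  have h : a n ^ ex e n ∈ FF a e := Subgroup.subset_closure ⟨n, rfl⟩
  unfold ex at h
  split_ifs at h with h1
  · exact h
  · rw [pow_one] at h
    exact pow_mem h 2

variable {a} (ha : Function.Injective (FreeGroup.lift a))

include ha

theorem not_comm_aux {n : ℕ} {φ : SL2C →* GL (Fin n) ℂ} (hφ : ∀ g, φ g = 1 ↔ (g = 1 ∨ g = -1))
    {e e' : ℕ → Bool} {i : ℕ} (hi : e i = false) (hi' : e' i = true) :
    ((FF a e').map φ).relIndex ((FF a e).map φ) = 0 := by
  by_contra hcon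
  obtain ⟨j, hij⟩ : ∃ j : ℕ, j ≠ i := ⟨i + 1, by omega⟩
  have hai : a i ∈ FF a e := by
    have h : a i ^ ex e i ∈ FF a e := Subgroup.subset_closure ⟨i, rfl⟩
    simpa [ex, hi] using h
  have hg : a i * a j ^ 2 ∈ FF a e := mul_mem hai (sq_mem_FF a e j)
  obtain ⟨N, hN, -, hmem⟩ := Subgroup.exists_pow_mem_of_relIndex_ne_zero hcon
    (Subgroup.mem_map_of_mem φ hg)
  rw [Subgroup.mem_inf] at hmem
  obtain ⟨f, hf, hfe⟩ := hmem.1
  rw [← map_pow] at hfe
  have h1 : φ (f⁻¹ * (a i * a j ^ 2) ^ N) = 1 := by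
    rw [map_mul, map_inv, hfe, inv_mul_cancel]
  have h2 : (a i * a j ^ 2) ^ (N * 2) = f ^ 2 := by
    rw [pow_mul]
    rcases (hφ _).1 h1 with h | h
    · rw [inv_mul_eq_one] at h
      rw [h]
    · have : (a i * a j ^ 2) ^ N = f * (-1) := by rw [← h]; group
      rw [this, mul_neg, mul_one, neg_sq]
  have h3 : (a i * a j ^ 2) ^ (N * 2) ∈ FF a e' := by
    rw [h2]
    exact pow_mem hf 2
  rw [FF_eq_map] at h3
  obtain ⟨w, hw, hwe⟩ := h3
  have h4 : w = (FreeGroup.of i * FreeGroup.of j ^ 2) ^ (N * 2) := by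
    apply ha
    rw [hwe, map_pow, map_mul, map_pow, FreeGroup.lift_apply_of, FreeGroup.lift_apply_of]
  rw [h4] at hw
  exact free_not_mem hi' hij (by omega) hw

theorem eq_of_comm {n : ℕ} {φ : SL2C →* GL (Fin n) ℂ} (hφ : ∀ g, φ g = 1 ↔ (g = 1 ∨ g = -1))
    {e e' : ℕ → Bool} (h : Subgroup.Commensurable ((FF a e).map φ) ((FF a e').map φ)) : e = e' := by
  by_contra hne
  obtain ⟨i, hi⟩ := Function.ne_iff.1 hne
  rcases hei : e i with _ | _
  · rcases hei' : e' i with _ | _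
    · exact hi (by rw [hei, hei'])
    · exact h.2 (not_comm_aux ha hφ hei hei')
  · rcases hei' : e' i with _ | _
    · exact h.1 (not_comm_aux ha hφ hei' hei)
    · exact hi (by rw [hei, hei'])

end Pool.Agent.MP_1921ec_al
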