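import Pool.Agent.MP_1921ec_al.PingPong
import Pool.Agent.MP_1921ec_al.FreeArg

/-!
There are only countably many candidates for S-arithmetic groups in a given free family.
-/

open IsDedekindDomain NumberField

namespace Pool.Agent.MP_1921ec_al

/-- algebraic numbers -/
def AA : Set ℂ := {x | IsAlgebraic ℚ x}

theorem AA_countable : AA.Countable := Algebraic.countable ℚ ℂ

theorem subset_AA (K : Subfield ℂ) [NumberField K] {x : ℂ} (hx : x ∈ K) : x ∈ AA := by
  have h : IsAlgebraic ℚ (⟨x, hx⟩ : K) := Algebra.IsAlgebraic.isAlgebraic _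
  exact h.algebraMap (A := ℂ)

theorem countable_subfield (K : Subfield ℂ) [NumberField K] : Countable K := by
  have : ((K : Set ℂ)).Countable := AA_countable.mono fun x hx => subset_AA K hx
  exact this.to_subtype

theorem countable_places (K : Subfield ℂ) [NumberField K] :
    Countable (HeightOneSpectrum (𝓞 K)) := by
  have h1 : Countable K := countable_subfield K
  have h2 : Countable (𝓞 K) := by
    have : Function.Injective (fun x : 𝓞 K => (x : K)) := RingOfIntegers.coe_injective
    exact this.countable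
  have h3 : Countable (Ideal (𝓞 K)) := by
    have hs : Function.Surjective fun s : Finset (𝓞 K) => Ideal.span (s : Set (𝓞 K)) := by
      intro I
      obtain ⟨s, hs⟩ := (isNoetherian_def.1 (inferInstance : IsNoetherian (𝓞 K) (𝓞 K))) I
      exact ⟨s, hs⟩
    exact hs.countable
  have hi : Function.Injective fun v : HeightOneSpectrum (𝓞 K) => v.asIdeal := by
    intro v w h
    exact HeightOneSpectrum.ext h
  exact hi.countable

theorem eq_closure (K : Subfield ℂ) [NumberField K] : ∃ x ∈ AA, Subfield.closure {x} = K := by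
  obtain ⟨α, hα⟩ := Field.exists_primitive_element ℚ K
  refine ⟨α, subset_AA K α.2, le_antisymm ?_ ?_⟩
  · rw [Subfield.closure_le]
    rintro _ rfl
    exact α.2
  · intro x hx
    have hq : ∀ q : ℚ, algebraMap ℚ K q ∈ (Subfield.closure {α.1}).comap K.subtype := by
      intro q
      change K.subtype (algebraMap ℚ K q) ∈ Subfield.closure {α.1}
      have : K.subtype (algebraMap ℚ K q) = (q : ℂ) := by simp
      rw [this]
      exact SubfieldClass.ratCast_mem _ q
    have hT : (⊤ : IntermediateField ℚ K) ≤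
        ((Subfield.closure {α.1}).comap K.subtype).toIntermediateField hq := by
      rw [← hα, IntermediateField.adjoin_le_iff]
      intro y hy
      rw [Set.mem_singleton_iff.1 hy]
      change K.subtype α ∈ Subfield.closure {α.1}
      exact Subfield.subset_closure rfl
    exact hT (IntermediateField.mem_top : (⟨x, hx⟩ : K) ∈ (⊤ : IntermediateField ℚ K))

theorem uncountable_bool : ¬ Countable (ℕ → Bool) := by
  intro h
  obtain ⟨f, hf⟩ := exists_surjective_nat (ℕ → Bool)
  obtain ⟨n, hn⟩ := hf fun k => ! f k k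
  have := congrFun hn n
  simp at this

/-- the possible rings of S-integers -/
def RR : Set (Subring ℂ) := {R | ∃ (K : Subfield ℂ) (_ : NumberField K)
  (S : Finset (HeightOneSpectrum (𝓞 K))),
    R = (((S : Set (HeightOneSpectrum (𝓞 K))).integer K).toSubring).map K.subtype}

theorem RR_countable : RR.Countable := by
  have hK : {K : Subfield ℂ | Nonempty (NumberField K)}.Countable := by
    apply (AA_countable.image fun x => Subfield.closure {x}).mono
    rintro K ⟨hK⟩
    obtain ⟨x, hx, hxK⟩ := eq_closure K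
    exact ⟨x, hx, hxK⟩
  have : RR ⊆ ⋃ K ∈ {K : Subfield ℂ | Nonempty (NumberField K)},
      {R | ∃ (_ : NumberField K) (S : Finset (HeightOneSpectrum (𝓞 K))),
    R = (((S : Set (HeightOneSpectrum (𝓞 K))).integer K).toSubring).map K.subtype} := by
    rintro R ⟨K, hK, S, hS⟩
    exact Set.mem_biUnion (⟨hK⟩ : K ∈ {K : Subfield ℂ | Nonempty (NumberField K)}) ⟨hK, S, hS⟩
  refine Set.Countable.mono this (hK.biUnion ?_)
  rintro K ⟨hK⟩
  have h1 := countable_places K
  have : {R | ∃ (_ : NumberField K) (S : Finset (HeightOneSpectrum (𝓞 K))),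
      R = (((S : Set (HeightOneSpectrum (𝓞 K))).integer K).toSubring).map K.subtype} ⊆
      Set.range fun S : Finset (HeightOneSpectrum (𝓞 K)) =>
        (((S : Set (HeightOneSpectrum (𝓞 K))).integer K).toSubring).map K.subtype := by
    rintro R ⟨_, S, hS⟩
    exact ⟨S, hS.symm⟩
  exact (Set.countable_range _).mono this

/-- matrices with algebraic entries -/
def MM (n : ℕ) : Set (Matrix (Fin n) (Fin n) ℂ) := {B | ∀ i j, B i j ∈ AA}

theorem MM_countable (n : ℕ) : (MM n).Countable := by
  have h : (Set.univ.pi fun _ : Fin n => Set.univ.pi fun _ : Fin n => AA).Countable :=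
    Set.countable_univ_pi fun _ => Set.countable_univ_pi fun _ => AA_countable
  apply h.mono
  intro B hB i _ j _
  exact hB i j

theorem phi_eq {K K' : Subfield ℂ} [NumberField K] [NumberField K'] {n : ℕ} (D : ArithDatum K n)
    (D' : ArithDatum K' n) {H : Subgroup SL2C} (hH : ZariskiDense H)
    (h : ∀ g ∈ H, D.φ g = D'.φ g) : D.φ = D'.φ := by
  obtain ⟨p, hp⟩ := D.φ_poly
  obtain ⟨p', hp'⟩ := D'.φ_poly
  ext g i j
  have := hH (p i j - p' i j) (fun x hx => by
    rw [map_sub, ← hp, ← hp', h x hx, sub_self]) g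
  rw [map_sub, ← hp, ← hp', sub_eq_zero] at this
  exact this

theorem exists_nonarithmetic {a : ℕ → SL2C} (ha : Function.Injective (FreeGroup.lift a))
    {P Q : SL2C} {z w : ℂˣ} (hz : ‖(z : ℂ)‖ ≠ 1) (hw : ‖(w : ℂ)‖ ≠ 1)
    (hP : a 0 = P * dg z * P⁻¹) (hQ : a 1 = Q * dg w * Q⁻¹) (hne : ∀ i j, (P⁻¹ * Q).1 i j ≠ 0) :
    ∃ e, ¬ IsSArithmetic (FF a e) := by
  by_contra hcon
  push Not at hcon
  have hdense : ∀ N : ℕ, 0 < N → ∀ H : Subgroup SL2C, a 0 ^ N ∈ H → a 1 ^ N ∈ H →
      ZariskiDense H := by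
    intro N hN H h0 h1
    rw [hP, conj_dg_pow] at h0
    rw [hQ, conj_dg_pow] at h1
    refine dense_of_two ?_ ?_ h0 h1 hne
    · rw [Units.val_pow_eq_pow_val, norm_pow]
      intro h
      exact hz ((pow_eq_one_iff_of_nonneg (norm_nonneg _) hN.ne').1 h)
    · rw [Units.val_pow_eq_pow_val, norm_pow]
      intro h
      exact hw ((pow_eq_one_iff_of_nonneg (norm_nonneg _) hN.ne').1 h)
  let E : (n : ℕ) → Subring ℂ → ℕ → Matrix (Fin n) (Fin n) ℂ → Matrix (Fin n) (Fin n) ℂ →
      Set (ℕ → Bool) := fun n R N B0 B1 =>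
    {e | ∃ (K : Subfield ℂ) (_ : NumberField K) (D : ArithDatum K n), 0 < N ∧ D.intRing = R ∧
      D.IsArithmetic (FF a e) ∧ (D.φ (a 0 ^ N) : Matrix (Fin n) (Fin n) ℂ) = B0 ∧
      (D.φ (a 1 ^ N) : Matrix (Fin n) (Fin n) ℂ) = B1}
  have hE : ∀ n R N B0 B1, (E n R N B0 B1).Subsingleton := by
    rintro n R N B0 B1 e ⟨K, hK, D, hN, hR, hD, h0, h1⟩ e' ⟨K', hK', D', -, hR', hD', h0', h1'⟩
    have hφ : D.φ = D'.φ := by
      apply phi_eq D D' (H := MonoidHom.eqLocus D.φ D'.φ)
      · apply hdense N hN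
        · exact Units.ext (h0.trans h0'.symm)
        · exact Units.ext (h1.trans h1'.symm)
      · intro g hg
        exact hg
    have hI : D.intPoints = D'.intPoints := by
      ext A
      change (A ∈ D.φ.range ∧ _) ↔ (A ∈ D'.φ.range ∧ _)
      rw [hφ, hR, hR']
    apply eq_of_comm ha D.φ_ker
    unfold ArithDatum.IsArithmetic at hD hD'
    rw [← hI, ← hφ] at hD'
    exact hD.trans hD'.symm
  have hcover : (Set.univ : Set (ℕ → Bool)) ⊆ ⋃ n : ℕ, ⋃ R ∈ RR, ⋃ N : ℕ, ⋃ B0 ∈ MM n,
      ⋃ B1 ∈ MM n, E n R N B0 B1 := by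
    intro e _
    obtain ⟨K, hK, n, D, hD⟩ := hcon e
    obtain ⟨N0, hN0, -, hm0⟩ := Subgroup.exists_pow_mem_of_relIndex_ne_zero hD.2
      (Subgroup.mem_map_of_mem D.φ (sq_mem_FF a e 0))
    obtain ⟨N1, hN1, -, hm1⟩ := Subgroup.exists_pow_mem_of_relIndex_ne_zero hD.2
      (Subgroup.mem_map_of_mem D.φ (sq_mem_FF a e 1))
    have hmem0 : D.φ (a 0 ^ (2 * N0 * N1)) ∈ D.intPoints := by
      rw [pow_mul, pow_mul, map_pow, map_pow]
      exact pow_mem hm0.1 _
    have hmem1 : D.φ (a 1 ^ (2 * N0 * N1)) ∈ D.intPoints := by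
      rw [mul_right_comm, pow_mul, pow_mul, map_pow, map_pow]
      exact pow_mem hm1.1 _
    have hRA : ∀ x ∈ D.intRing, x ∈ AA := by
      rintro _ ⟨y, -, rfl⟩
      exact subset_AA K y.2
    simp only [Set.mem_iUnion]
    exact ⟨n, D.intRing, ⟨K, hK, D.S, rfl⟩, 2 * N0 * N1, _, fun i j => hRA _ (hmem0.2.1 i j), _,
      fun i j => hRA _ (hmem1.2.1 i j), K, hK, D, by positivity, rfl, hD, rfl, rfl⟩
  have hcount : (Set.univ : Set (ℕ → Bool)).Countable := by
    refine Set.Countable.mono hcover ?_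
    refine Set.countable_iUnion fun n => RR_countable.biUnion fun R _ => ?_
    refine Set.countable_iUnion fun N => (MM_countable n).biUnion fun B0 _ => ?_
    exact (MM_countable n).biUnion fun B1 _ => (hE n R N B0 B1).countable
  have : Countable (ℕ → Bool) := Set.countable_univ_iff.1 hcount
  exact uncountable_bool this

end Pool.Agent.MP_1921ec_al
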