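import Pool.Agent.MP_1921ec_al.Gauss

/-!
The adjoint group `PGL₂` over a number field as the automorphism group of the algebra of
`2 × 2` matrices.
-/

open IsDedekindDomain NumberField MvPolynomial

namespace Pool.Agent.MP_1921ec_al

/-- pairs of indices -/
def ee : Fin 2 × Fin 2 ≃ Fin 4 := finProdFinEquiv

/-- the matrix of `X ↦ g X g⁻¹` -/
noncomputable def conjMat (g : SL2C) : Matrix (Fin 4) (Fin 4) ℂ :=
  Matrix.of fun a b => g.1 (ee.symm a).1 (ee.symm b).1 * (g⁻¹).1 (ee.symm b).2 (ee.symm a).2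

theorem conjMat_ee (g : SL2C) (i j k l : Fin 2) :
    conjMat g (ee (i, j)) (ee (k, l)) = g.1 i k * (g⁻¹).1 l j := by
  simp [conjMat]

theorem ext_ee {L : Type*} {A B : Matrix (Fin 4) (Fin 4) L}
    (h : ∀ i j k l, A (ee (i, j)) (ee (k, l)) = B (ee (i, j)) (ee (k, l))) : A = B := by
  ext a b
  obtain ⟨⟨i, j⟩, rfl⟩ := ee.surjective a
  obtain ⟨⟨k, l⟩, rfl⟩ := ee.surjective b
  exact h i j k l

theorem inv_mul_entry (g : SL2C) (l m : Fin 2) :
    (g⁻¹).1 l 0 * g.1 0 m + (g⁻¹).1 l 1 * g.1 1 m = if l = m then 1 else 0 := by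
  have h : ((g⁻¹ * g : SL2C)).1 l m = (1 : SL2C).1 l m := by rw [inv_mul_cancel]
  have h' : ((g⁻¹ * g : SL2C)).1 l m = (g⁻¹).1 l 0 * g.1 0 m + (g⁻¹).1 l 1 * g.1 1 m := by
    change ((g⁻¹).1 * g.1) l m = _
    rw [Matrix.mul_apply, Fin.sum_univ_two]
  rw [← h', h]
  change (1 : Matrix (Fin 2) (Fin 2) ℂ) l m = _
  rw [Matrix.one_apply]

theorem conjMat_one : conjMat 1 = 1 := by
  apply ext_ee
  intro i j k l
  rw [conjMat_ee, inv_one, Matrix.one_apply]
  have h : (1 : SL2C).1 = (1 : Matrix (Fin 2) (Fin 2) ℂ) := rfl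
  rw [h, Matrix.one_apply, Matrix.one_apply]
  simp only [EmbeddingLike.apply_eq_iff_eq, Prod.mk.injEq]
  by_cases h1 : i = k <;> by_cases h2 : j = l <;> simp [h1, h2, eq_comm]

theorem conjMat_mul (g h : SL2C) : conjMat (g * h) = conjMat g * conjMat h := by
  apply ext_ee
  intro i j k l
  rw [Matrix.mul_apply, ← ee.sum_comp, Fintype.sum_prod_type]
  simp only [conjMat_ee, Fin.sum_univ_two, mul_inv_rev]
  have h1 : (g * h).1 i k = g.1 i 0 * h.1 0 k + g.1 i 1 * h.1 1 k := by
    change (g.1 * h.1) i k = _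
    rw [Matrix.mul_apply, Fin.sum_univ_two]
  have h2 : (h⁻¹ * g⁻¹).1 l j = (h⁻¹).1 l 0 * (g⁻¹).1 0 j + (h⁻¹).1 l 1 * (g⁻¹).1 1 j := by
    change ((h⁻¹).1 * (g⁻¹).1) l j = _
    rw [Matrix.mul_apply, Fin.sum_univ_two]
  rw [h1, h2]
  ring

/-- conjugation as a homomorphism into matrices -/
noncomputable def conjHom : SL2C →* Matrix (Fin 4) (Fin 4) ℂ where
  toFun := conjMat
  map_one' := conjMat_one
  map_mul' := conjMat_mul

/-- the isogeny `SL₂ → Aut(M₂)` -/
noncomputable def phi : SL2C →* GL (Fin 4) ℂ := conjHom.toHomUnits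

theorem phi_val (g : SL2C) : (phi g : Matrix (Fin 4) (Fin 4) ℂ) = conjMat g := rfl

theorem phi_inv_val (g : SL2C) :
    (((phi g)⁻¹ : GL (Fin 4) ℂ) : Matrix (Fin 4) (Fin 4) ℂ) = conjMat g⁻¹ := by
  rw [← map_inv, phi_val]

theorem inv_val' (g : SL2C) : (g⁻¹).1 = !![g.1 1 1, -g.1 0 1; -g.1 1 0, g.1 0 0] := by
  rw [Matrix.SpecialLinearGroup.SL2_inv_expl]
  rfl

/-- polynomials for the entries of the inverse -/
noncomputable def invPoly : Matrix (Fin 2) (Fin 2) (MvPolynomial (Fin 2 × Fin 2) ℂ) :=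
  !![X (1, 1), -X (0, 1); -X (1, 0), X (0, 0)]

theorem eval_invPoly (g : SL2C) (l j : Fin 2) :
    eval (entries g.1) (invPoly l j) = (g⁻¹).1 l j := by
  rw [inv_val']
  fin_cases l <;> fin_cases j <;> simp [invPoly, entries]

theorem phi_poly : ∃ p : Fin 4 → Fin 4 → MvPolynomial (Fin 2 × Fin 2) ℂ,
    ∀ g i j, (phi g : Matrix (Fin 4) (Fin 4) ℂ) i j = MvPolynomial.eval (entries g.1) (p i j) := by
  refine ⟨fun a b => X ((ee.symm a).1, (ee.symm b).1) * invPoly (ee.symm b).2 (ee.symm a).2, ?_⟩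
  intro g i j
  rw [phi_val, map_mul, eval_invPoly, eval_X]
  rfl

theorem phi_ker (g : SL2C) : phi g = 1 ↔ (g = 1 ∨ g = -1) := by
  constructor
  · intro h
    have h1 : conjMat g = 1 := by rw [← phi_val, h]; rfl
    have h2 : ∀ i j k l, g.1 i k * (g⁻¹).1 l j = if i = k ∧ j = l then 1 else 0 := by
      intro i j k l
      rw [← conjMat_ee, h1, Matrix.one_apply]
      simp only [EmbeddingLike.apply_eq_iff_eq, Prod.mk.injEq]
    rw [inv_val'] at h2
    have e1 := h2 0 0 0 0
    have e2 := h2 1 0 1 0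
    have e3 := h2 0 0 1 0
    have e4 := h2 1 0 0 0
    have e5 := h2 0 1 0 1
    simp at e1 e2 e3 e4 e5
    replace e2 := mul_self_eq_one_iff.1 e2
    have n1 : g.1 1 1 ≠ 0 := by
      intro h0
      rw [h0, mul_zero] at e1
      exact zero_ne_one e1
    have e3' : g.1 0 1 = 0 := e3.resolve_right n1
    have e4' : g.1 1 0 = 0 := e4.resolve_right n1
    rcases e2 with e | e
    · left
      rw [e, mul_one] at e1
      ext i j
      fin_cases i <;> fin_cases j <;> simp [e, e1, e3', e4']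
    · right
      rw [e, mul_neg_one] at e1
      have e1' : g.1 0 0 = -1 := by linear_combination -e1
      ext i j
      fin_cases i <;> fin_cases j <;> simp [e, e1', e3', e4']
  · rintro (rfl | rfl)
    · exact map_one _
    · apply Units.ext
      change conjMat (-1) = 1
      rw [← conjMat_one]
      apply ext_ee
      intro i j k l
      rw [conjMat_ee, conjMat_ee]
      have h1 : (-1 : SL2C)⁻¹ = -1 := by
        rw [inv_eq_iff_mul_eq_one]
        simp
      rw [h1, inv_one]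
      simp

section eqns

variable (K : Type*) [Field K]

/-- the equations of `Aut(M₂)` -/
noncomputable def eqn (i j k l m n : Fin 2) : MvPolynomial (Fin 4 × Fin 4) K :=
  (if l = m then X (ee (i, j), ee (k, n)) else 0) -
    (X (ee (i, 0), ee (k, l)) * X (ee (0, j), ee (m, n)) +
      X (ee (i, 1), ee (k, l)) * X (ee (1, j), ee (m, n)))

/-- the set of equations of `Aut(M₂)` -/
def II : Set (MvPolynomial (Fin 4 × Fin 4) K) := {f | ∃ i j k l m n, f = eqn K i j k l m n}

variable {K} {L : Type*} [Field L] [Algebra K L]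

theorem aeval_eqn (A : Matrix (Fin 4) (Fin 4) L) (i j k l m n : Fin 2) :
    aeval (entries A) (eqn K i j k l m n) = (if l = m then A (ee (i, j)) (ee (k, n)) else 0) -
    (A (ee (i, 0)) (ee (k, l)) * A (ee (0, j)) (ee (m, n)) +
      A (ee (i, 1)) (ee (k, l)) * A (ee (1, j)) (ee (m, n))) := by
  unfold eqn
  split_ifs <;> simp [entries]

end eqns

theorem phi_mem (g : SL2C) (K : Subfield ℂ) (f : MvPolynomial (Fin 4 × Fin 4) K) (hf : f ∈ II K) :
    aeval (entries (phi g : Matrix (Fin 4) (Fin 4) ℂ)) f = 0 := by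
  obtain ⟨i, j, k, l, m, n, rfl⟩ := hf
  rw [aeval_eqn, phi_val]
  simp only [conjMat_ee]
  have h := inv_mul_entry g l m
  split_ifs at h ⊢
  · linear_combination (-(g.1 i k * (g⁻¹).1 n j)) * h
  · linear_combination (-(g.1 i k * (g⁻¹).1 n j)) * h

theorem mem_range_phi (A : GL (Fin 4) ℂ) (K : Subfield ℂ)
    (hA : ∀ f ∈ II K, aeval (entries (A : Matrix (Fin 4) (Fin 4) ℂ)) f = 0) : A ∈ phi.range := by
  set M : Matrix (Fin 4) (Fin 4) ℂ := (A : Matrix (Fin 4) (Fin 4) ℂ) with hM
  -- the images of the matrix units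
  let E : Fin 2 → Fin 2 → Matrix (Fin 2) (Fin 2) ℂ := fun k l =>
    Matrix.of fun i j => M (ee (i, j)) (ee (k, l))
  have hE : ∀ k l m n, E k l * E m n = if l = m then E k n else 0 := by
    intro k l m n
    ext i j
    have := hA _ ⟨i, j, k, l, m, n, rfl⟩
    rw [aeval_eqn, sub_eq_zero] at this
    rw [Matrix.mul_apply, Fin.sum_univ_two]
    simp only [E, Matrix.of_apply]
    rw [← this]
    split_ifs <;> rfl
  have hE0 : E 0 0 ≠ 0 := by
    intro h0
    have h1 : ∀ a, M a (ee (0, 0)) = 0 := by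
      intro a
      obtain ⟨⟨i, j⟩, rfl⟩ := ee.surjective a
      exact congrFun (congrFun h0 i) j
    have h2 : (((A⁻¹ : GL (Fin 4) ℂ) : Matrix (Fin 4) (Fin 4) ℂ) * M) (ee (0, 0)) (ee (0, 0)) =
        (1 : Matrix (Fin 4) (Fin 4) ℂ) (ee (0, 0)) (ee (0, 0)) := by
      rw [hM, ← Units.val_mul, inv_mul_cancel, Units.val_one]
    rw [Matrix.mul_apply, Matrix.one_apply_eq] at h2
    simp [h1] at h2
  obtain ⟨p, q, hpq⟩ : ∃ p q, E 0 0 p q ≠ 0 := by
    by_contra hcon
    push Not at hcon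
    exact hE0 (Matrix.ext hcon)
  let P : Matrix (Fin 2) (Fin 2) ℂ := Matrix.of fun i j => E j 0 i q
  have hEP : ∀ k l i j, (E k l * P) i j = if l = j then P i k else 0 := by
    intro k l i j
    have h := congrFun (congrFun (hE k l j 0) i) q
    rw [Matrix.mul_apply] at h ⊢
    have h' : ∑ s, E k l i s * P s j = ∑ s, E k l i s * E j 0 s q := rfl
    rw [h', h]
    split_ifs <;> rfl
  have hdet : P.det ≠ 0 := by
    intro h0
    obtain ⟨v, hv, hPv⟩ := Matrix.exists_mulVec_eq_zero_iff.2 h0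
    apply hv
    have hv' : ∀ l, v l = 0 := by
      intro l
      have h1 : ((E 0 l * P).mulVec v) p = 0 := by
        rw [← Matrix.mulVec_mulVec, hPv, Matrix.mulVec_zero]
        rfl
      rw [Matrix.mulVec, dotProduct] at h1
      simp only [hEP] at h1
      simp only [ite_mul, zero_mul, Finset.sum_ite_eq, Finset.mem_univ, if_true] at h1
      exact (mul_eq_zero.1 h1).resolve_left hpq
    exact funext hv'
  obtain ⟨c, hc⟩ := IsAlgClosed.exists_pow_nat_eq (P.det)⁻¹ (n := 2) two_pos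
  let g : SL2C := ⟨c • P, by
    rw [Matrix.det_smul, Fintype.card_fin, hc, inv_mul_cancel₀ hdet]⟩
  have hg : g.1 = c • P := rfl
  have hEg : ∀ k l i j, (E k l * g.1) i j = if l = j then g.1 i k else 0 := by
    intro k l i j
    rw [hg, Matrix.mul_smul, Matrix.smul_apply, Matrix.smul_apply, hEP]
    split_ifs
    · rfl
    · rw [smul_zero]
  refine ⟨g, Units.ext ?_⟩
  rw [phi_val, ← hM]
  apply ext_ee
  intro i j k l
  rw [conjMat_ee]
  have h1 : M (ee (i, j)) (ee (k, l)) = E k l i j := rfl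
  have h2 : E k l = E k l * g.1 * (g⁻¹).1 := by
    have : g.1 * (g⁻¹).1 = 1 := congrArg Subtype.val (mul_inv_cancel g)
    rw [Matrix.mul_assoc, this, Matrix.mul_one]
  rw [h1, h2, Matrix.mul_apply]
  simp only [hEg, ite_mul, zero_mul, Finset.sum_ite_eq, Finset.mem_univ, if_true]

/-- the weight of a matrix unit under conjugation by `diag(1, t)` -/
def wt (c : Fin 4) : Fin 1 → ℤ := fun _ => (((ee.symm c).2 : ℕ) : ℤ) - (((ee.symm c).1 : ℕ) : ℤ)

theorem wt_ee (i j : Fin 2) : wt (ee (i, j)) = fun _ => ((j : ℕ) : ℤ) - ((i : ℕ) : ℤ) := by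
  funext _
  simp [wt]

section split

variable {K : Type*} [Field K] (L : Type*) [Field L] [Algebra K L]

/-- the weight projections -/
noncomputable def PP (a : Fin 1 → ℤ) : Matrix (Fin 4) (Fin 4) L :=
  Matrix.diagonal fun c => if wt c = a then 1 else 0

/-- the set of weights -/
noncomputable def ws : Finset (Fin 1 → ℤ) := Finset.univ.image wt

theorem mem_ws (c : Fin 4) : wt c ∈ ws := Finset.mem_image_of_mem _ (Finset.mem_univ _)

theorem sum_PP (x : (Fin 1 → ℤ) → L) :
    ∑ a ∈ ws, x a • PP L a = Matrix.diagonal fun c => x (wt c) := by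
  ext a b
  rw [Matrix.sum_apply]
  by_cases h : a = b
  · subst h
    simp only [Matrix.smul_apply, PP, Matrix.diagonal_apply_eq, smul_eq_mul, mul_ite, mul_one,
      mul_zero, Finset.sum_ite_eq, mem_ws, if_true]
  · simp only [Matrix.smul_apply, PP, Matrix.diagonal_apply_ne _ h, smul_zero,
      Finset.sum_const_zero]

theorem hasSplitTorus : HasSplitTorus (II K) L 1 := by
  refine ⟨ws, PP L, ?_, ?_, ?_, ?_, ?_⟩
  · intro a ha h0
    obtain ⟨c, -, rfl⟩ := Finset.mem_image.1 ha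
    have := congrFun (congrFun h0 c) c
    rw [PP, Matrix.diagonal_apply_eq, if_pos rfl] at this
    exact one_ne_zero this
  · intro a _ b _
    rw [PP, PP, Matrix.diagonal_mul_diagonal]
    split_ifs with h
    · subst h
      congr 1
      ext c
      split_ifs <;> simp
    · rw [← Matrix.diagonal_zero]
      congr 1
      ext c
      by_cases h1 : wt c = a
      · rw [if_pos h1, if_neg (by rw [h1]; exact h)]
        simp
      · rw [if_neg h1]
        simp
  · have := sum_PP L (fun _ => 1)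
    simp only [one_smul] at this
    rw [this, Matrix.diagonal_one]
  · intro c hc
    have := hc _ (mem_ws (ee (0, 1)))
    rw [wt_ee] at this
    simp at this
    ext i
    rw [Subsingleton.elim i 0]
    exact this
  · rintro t f ⟨i, j, k, l, m, n, rfl⟩
    rw [sum_PP L fun a => ((∏ i, t i ^ a i : Lˣ) : L)]
    rw [aeval_eqn]
    simp only [Fin.prod_univ_one, Matrix.diagonal_apply, EmbeddingLike.apply_eq_iff_eq,
      Prod.mk.injEq, wt_ee]
    fin_cases i <;> fin_cases j <;> fin_cases k <;> fin_cases l <;> fin_cases m <;> fin_cases n <;>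
      simp

end split

/-- the triple `(Aut(M₂), ℚ(i), S)` -/
noncomputable def DD : ArithDatum KK 4 where
  S := SS
  I := II KK
  φ := phi
  φ_poly := phi_poly
  φ_ker := phi_ker
  φ_range := by
    intro A
    constructor
    · rintro ⟨g, rfl⟩ f hf
      exact phi_mem g KK f hf
    · exact mem_range_phi A KK
  isotropic := fun v _ => hasSplitTorus (v.adicCompletion KK)

theorem one_le_splitRank (L : Type*) [Field L] [Algebra KK L] : 1 ≤ splitRank (II KK) L := by
  unfold splitRank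
  exact le_iSup₂_of_le 1 (hasSplitTorus L) (by simp)

theorem two_le_SRank : 2 ≤ DD.SRank := by
  unfold ArithDatum.SRank
  rw [← one_add_one_eq_two]
  apply add_le_add
  · obtain ⟨v⟩ := (inferInstance : Nonempty (InfinitePlace KK))
    exact (one_le_splitRank v.Completion).trans
      (Finset.single_le_sum (f := fun v : InfinitePlace KK => splitRank DD.I v.Completion)
        (fun _ _ => zero_le) (Finset.mem_univ v))
  · obtain ⟨v, hv⟩ := SS_nonempty
    exact (one_le_splitRank (v.adicCompletion KK)).trans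
      (Finset.single_le_sum (f := fun v : HeightOneSpectrum (𝓞 KK) =>
        splitRank DD.I (v.adicCompletion KK)) (fun _ _ => zero_le) hv)

/-- the arithmetic group `{g ∈ SL₂(ℂ) : φ(g) ∈ 𝒢(𝒪_K(S))}` -/
noncomputable def G1 : Subgroup SL2C := DD.intPoints.comap phi

theorem isArithmetic_G1 : DD.IsArithmetic G1 := by
  unfold ArithDatum.IsArithmetic
  have : G1.map DD.φ = DD.intPoints := by
    change (DD.intPoints.comap phi).map phi = DD.intPoints
    rw [Subgroup.map_comap_eq, inf_eq_right]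
    rintro A ⟨hA, -⟩
    exact hA
  rw [this]

theorem mem_G1 {g : SL2C} : g ∈ G1 ↔ (∀ i j k l, g.1 i k * (g⁻¹).1 l j ∈ RS) ∧
    ∀ i j k l, (g⁻¹).1 i k * g.1 l j ∈ RS := by
  constructor
  · rintro ⟨-, h1, h2⟩
    change ∀ a b, ((phi g : GL (Fin 4) ℂ) : Matrix (Fin 4) (Fin 4) ℂ) a b ∈ RS at h1
    change ∀ a b, (((phi g)⁻¹ : GL (Fin 4) ℂ) : Matrix (Fin 4) (Fin 4) ℂ) a b ∈ RS at h2
    rw [phi_inv_val] at h2
    rw [phi_val] at h1
    refine ⟨fun i j k l => ?_, fun i j k l => ?_⟩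
    · rw [← conjMat_ee]
      exact h1 _ _
    · have := h2 (ee (i, j)) (ee (k, l))
      rwa [conjMat_ee, inv_inv] at this
  · rintro ⟨h1, h2⟩
    refine ⟨⟨g, rfl⟩, fun a b => ?_, fun a b => ?_⟩
    · change ((phi g : GL (Fin 4) ℂ) : Matrix (Fin 4) (Fin 4) ℂ) a b ∈ RS
      rw [phi_val]
      exact h1 _ _ _ _
    · change (((phi g)⁻¹ : GL (Fin 4) ℂ) : Matrix (Fin 4) (Fin 4) ℂ) a b ∈ RS
      rw [phi_inv_val]
      have := h2 (ee.symm a).1 (ee.symm a).2 (ee.symm b).1 (ee.symm b).2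
      rw [conjMat, Matrix.of_apply, inv_inv]
      exact this

theorem mem_G1_of_entries {g : SL2C} (h : ∀ i j, g.1 i j ∈ RS) : g ∈ G1 := by
  have h' : ∀ i j, (g⁻¹).1 i j ∈ RS := by
    intro i j
    rw [inv_val']
    fin_cases i <;> fin_cases j
    · exact h 1 1
    · exact neg_mem (h 0 1)
    · exact neg_mem (h 1 0)
    · exact h 0 0
  exact mem_G1.2 ⟨fun i j k l => mul_mem (h _ _) (h' _ _), fun i j k l => mul_mem (h' _ _) (h _ _)⟩

end Pool.Agent.MP_1921ec_al
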