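import Mathlib

/-!
Definitions used in the statement of `Pool.Agent.Results.MP_1921ec_al.HigherRankCounterexample`.

The ambient groups are `G₁ = G₂ = SL₂` over `F = ℂ`. Its adjoint group is `PGL₂ = SL₂/{±1}`; a
`K`-group `𝒢 ⊆ GL_n` together with an isomorphism `σ : 𝒢 ⊗ ℂ → PGL₂` is given by the surjective
homomorphism of algebraic groups `φ = σ⁻¹ ∘ π : SL₂ → 𝒢` with kernel `{±1}`.
-/

open IsDedekindDomain NumberField

namespace Pool.Agent.MP_1921ec_al

/-- `SL₂(ℂ)` -/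
abbrev SL2C := Matrix.SpecialLinearGroup (Fin 2) ℂ

/-- the entries of a matrix, as a point of affine space -/
def entries {ι R : Type*} (M : Matrix ι ι R) : ι × ι → R := fun p => M p.1 p.2

/-- `Γ` is Zariski-dense in `SL₂`: every polynomial in the matrix entries which vanishes on `Γ`
vanishes on `SL₂(ℂ)`. -/
def ZariskiDense (Γ : Subgroup SL2C) : Prop :=
  ∀ f : MvPolynomial (Fin 2 × Fin 2) ℂ, (∀ g ∈ Γ, MvPolynomial.eval (entries g.1) f = 0) →
    ∀ g : SL2C, MvPolynomial.eval (entries g.1) f = 0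

/-- The diagonal matrix `diag(z, z⁻¹)`. The maximal tori of `SL₂` over `ℂ` are the groups
`{P diag(z, z⁻¹) P⁻¹ : z ∈ ℂˣ}` with `P ∈ SL₂(ℂ)`, and the characters of such a torus are
`P diag(z, z⁻¹) P⁻¹ ↦ z ^ k` with `k ∈ ℤ`. -/
noncomputable def dg (z : ℂˣ) : SL2C :=
  ⟨!![(z : ℂ), 0; 0, ((z⁻¹ : ℂˣ) : ℂ)], by simp [Matrix.det_fin_two_of]⟩

/-- `γ` is semisimple, i.e. it lies in a maximal torus. -/
def IsSemisimpleElt (γ : SL2C) : Prop := ∃ (P : SL2C) (z : ℂˣ), γ = P * dg z * P⁻¹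

/-- Weak commensurability of semisimple elements: they lie in maximal tori with characters which
take on them the same value `≠ 1`. -/
def WeaklyCommElt (γ₁ γ₂ : SL2C) : Prop :=
  ∃ (P₁ P₂ : SL2C) (z₁ z₂ : ℂˣ) (k₁ k₂ : ℤ), γ₁ = P₁ * dg z₁ * P₁⁻¹ ∧ γ₂ = P₂ * dg z₂ * P₂⁻¹ ∧
    z₁ ^ k₁ = z₂ ^ k₂ ∧ z₁ ^ k₁ ≠ 1

/-- every semisimple element of infinite order of `Γ₁` is weakly commensurable to some
semisimple element of infinite order of `Γ₂` -/
def WeaklyCommTo (Γ₁ Γ₂ : Subgroup SL2C) : Prop :=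
  ∀ γ₁ ∈ Γ₁, IsSemisimpleElt γ₁ → ¬ IsOfFinOrder γ₁ →
    ∃ γ₂ ∈ Γ₂, IsSemisimpleElt γ₂ ∧ ¬ IsOfFinOrder γ₂ ∧ WeaklyCommElt γ₁ γ₂

/-- Weak commensurability of subgroups. -/
def WeaklyCommensurable (Γ₁ Γ₂ : Subgroup SL2C) : Prop :=
  WeaklyCommTo Γ₁ Γ₂ ∧ WeaklyCommTo Γ₂ Γ₁

/-- The `K`-group `𝒢 = {g ∈ GL_n : f(g) = 0 for all f ∈ I}` contains over the extension `L` of `K`
a split torus of dimension `r`: there is a homomorphism `𝔾_m^r → 𝒢` over `L` with finite kernel.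
Such a homomorphism is `t ↦ ∑ t^a P_a`, where `P_a` is the projection onto the weight space of
weight `a ∈ ℤ^r`, and its kernel is finite iff no nonzero `c ∈ ℤ^r` is orthogonal to all
weights. -/
def HasSplitTorus {K : Type*} [Field K] {n : ℕ} (I : Set (MvPolynomial (Fin n × Fin n) K))
    (L : Type*) [Field L] [Algebra K L] (r : ℕ) : Prop :=
  ∃ (s : Finset (Fin r → ℤ)) (P : (Fin r → ℤ) → Matrix (Fin n) (Fin n) L),
    (∀ a ∈ s, P a ≠ 0) ∧ (∀ a ∈ s, ∀ b ∈ s, P a * P b = if a = b then P a else 0) ∧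
    ∑ a ∈ s, P a = 1 ∧ (∀ c : Fin r → ℤ, (∀ a ∈ s, ∑ i, c i * a i = 0) → c = 0) ∧
    ∀ t : Fin r → Lˣ, ∀ f ∈ I,
      MvPolynomial.aeval (entries (∑ a ∈ s, ((∏ i, t i ^ a i : Lˣ) : L) • P a)) f = 0

/-- The `L`-rank of `𝒢`: the largest dimension of an `L`-split torus in `𝒢`. -/
noncomputable def splitRank {K : Type*} [Field K] {n : ℕ}
    (I : Set (MvPolynomial (Fin n × Fin n) K)) (L : Type*) [Field L] [Algebra K L] : ℕ∞ :=
  ⨆ (r : ℕ) (_ : HasSplitTorus I L r), (r : ℕ∞)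

/-- A triple `(𝒢, K, S)` with an isomorphism `σ : 𝒢 ⊗ ℂ → PGL₂`, where `K ⊆ ℂ` is a number field,
the set of places consists of all archimedean places and of the finite places in `S`,
`𝒢 = {g ∈ GL_n : f(g) = 0 for all f ∈ I}` is a `K`-group and `φ = σ⁻¹ ∘ π : SL₂ → 𝒢`;
`S` contains no nonarchimedean place `v` with `𝒢` anisotropic over `K_v`. -/
structure ArithDatum (K : Subfield ℂ) [NumberField K] (n : ℕ) where
  /-- the finite places in the set of places -/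
  S : Finset (HeightOneSpectrum (𝓞 K))
  /-- the equations of `𝒢` in `GL_n`, with coefficients in `K` -/
  I : Set (MvPolynomial (Fin n × Fin n) K)
  /-- the isogeny `SL₂ → 𝒢`, on complex points -/
  φ : SL2C →* GL (Fin n) ℂ
  /-- `φ` is a morphism of algebraic varieties -/
  φ_poly : ∃ p : Fin n → Fin n → MvPolynomial (Fin 2 × Fin 2) ℂ,
    ∀ g i j, (φ g : Matrix (Fin n) (Fin n) ℂ) i j = MvPolynomial.eval (entries g.1) (p i j)
  /-- the kernel of `φ` is `{±1}` -/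
  φ_ker : ∀ g, φ g = 1 ↔ (g = 1 ∨ g = -1)
  /-- the image of `φ` is `𝒢(ℂ)` -/
  φ_range : ∀ A : GL (Fin n) ℂ, A ∈ φ.range ↔
    ∀ f ∈ I, MvPolynomial.aeval (entries (A : Matrix (Fin n) (Fin n) ℂ)) f = 0
  /-- `𝒢` is isotropic over `K_v` for the nonarchimedean places `v ∈ S` -/
  isotropic : ∀ v ∈ S, HasSplitTorus I (v.adicCompletion K) 1

namespace ArithDatum

variable {K : Subfield ℂ} [NumberField K] {n : ℕ} (D : ArithDatum K n)

/-- the ring of `S`-integers `𝒪_K(S)`, as a subring of `ℂ` -/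
noncomputable def intRing : Subring ℂ :=
  (((D.S : Set (HeightOneSpectrum (𝓞 K))).integer K).toSubring).map K.subtype

/-- the group `𝒢(𝒪_K(S))` -/
noncomputable def intPoints : Subgroup (GL (Fin n) ℂ) where
  carrier := {A | A ∈ D.φ.range ∧ (∀ i j, (A : Matrix (Fin n) (Fin n) ℂ) i j ∈ D.intRing) ∧
    ∀ i j, ((A⁻¹ : GL (Fin n) ℂ) : Matrix (Fin n) (Fin n) ℂ) i j ∈ D.intRing}
  one_mem' := by
    refine ⟨one_mem _, fun i j => ?_, fun i j => ?_⟩
    · rw [Units.val_one, Matrix.one_apply]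
      split_ifs
      · exact one_mem _
      · exact zero_mem _
    · rw [inv_one, Units.val_one, Matrix.one_apply]
      split_ifs
      · exact one_mem _
      · exact zero_mem _
  mul_mem' := by
    rintro A B ⟨hA, hA1, hA2⟩ ⟨hB, hB1, hB2⟩
    refine ⟨mul_mem hA hB, fun i j => ?_, fun i j => ?_⟩
    · rw [Units.val_mul, Matrix.mul_apply]
      exact sum_mem fun k _ => mul_mem (hA1 _ _) (hB1 _ _)
    · rw [mul_inv_rev, Units.val_mul, Matrix.mul_apply]
      exact sum_mem fun k _ => mul_mem (hB2 _ _) (hA2 _ _)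
  inv_mem' := by
    rintro A ⟨hA, hA1, hA2⟩
    exact ⟨inv_mem hA, hA2, by rwa [inv_inv]⟩

/-- `Γ` is `(𝒢, K, S)`-arithmetic: `π(Γ)` is commensurable with `σ(𝒢(𝒪_K(S)))`, equivalently
`φ(Γ)` is commensurable with `𝒢(𝒪_K(S))`. -/
def IsArithmetic (Γ : Subgroup SL2C) : Prop :=
  Subgroup.Commensurable (Γ.map D.φ) D.intPoints

/-- The `S`-rank: the sum over all places `v` in the set of places of the `K_v`-rank of `𝒢`. -/
noncomputable def SRank : ℕ∞ :=
  ∑ v : InfinitePlace K, splitRank D.I v.Completion + ∑ v ∈ D.S, splitRank D.I (v.adicCompletion K)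

end ArithDatum

/-- `Γ` is `S`-arithmetic: it is `(𝒢, K, S)`-arithmetic for some triple `(𝒢, K, S)`. -/
def IsSArithmetic (Γ : Subgroup SL2C) : Prop :=
  ∃ (K : Subfield ℂ) (_ : NumberField K) (n : ℕ) (D : ArithDatum K n), D.IsArithmetic Γ

end Pool.Agent.MP_1921ec_al
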