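import Pool.Agent.MP_1921ec_al.Defs

/-!
Zariski density of the group generated by two loxodromic elements without common fixed points.
-/

namespace Pool.Agent.MP_1921ec_al

section Generic

open Polynomial

theorem exists_generic {p q r t : ℂ} (h1 : p ≠ 0 ∨ q ≠ 0) (h2 : r ≠ 0 ∨ t ≠ 0) :
    ∃ τ : ℂ, τ ≠ 0 ∧ 1 + τ ^ 2 ≠ 0 ∧ p * (1 + τ ^ 2) - q * τ ≠ 0 ∧ q - p * τ ≠ 0 ∧
      r * (1 + τ ^ 2) - t * τ ≠ 0 ∧ t - r * τ ≠ 0 := by
  have hlin : ∀ a b : ℂ, (a ≠ 0 ∨ b ≠ 0) → (C b - C a * X : ℂ[X]) ≠ 0 := by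
    intro a b hab h
    have h0 := congrArg (Polynomial.eval 0) h
    have h1 := congrArg (Polynomial.eval 1) h
    simp at h0 h1
    rcases hab with hab | hab
    · apply hab
      rw [h0] at h1
      simpa using h1
    · exact hab h0
  have hquad : ∀ a b : ℂ, (a ≠ 0 ∨ b ≠ 0) → (C a * (1 + X ^ 2) - C b * X : ℂ[X]) ≠ 0 := by
    intro a b hab h
    have h0 := congrArg (Polynomial.eval 0) h
    have h1 := congrArg (Polynomial.eval 1) h
    simp at h0 h1
    rcases hab with hab | hab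
    · exact hab h0
    · apply hab
      rw [h0] at h1
      simpa using h1
  have hne : ((X : ℂ[X]) * (1 + X ^ 2) * (C p * (1 + X ^ 2) - C q * X) * (C q - C p * X) *
      (C r * (1 + X ^ 2) - C t * X) * (C t - C r * X)) ≠ 0 := by
    have hX2 : (1 + X ^ 2 : ℂ[X]) ≠ 0 := by
      intro h
      have := congrArg (Polynomial.eval 0) h
      simp at this
    exact mul_ne_zero (mul_ne_zero (mul_ne_zero (mul_ne_zero (mul_ne_zero X_ne_zero hX2)
      (hquad p q h1)) (hlin p q h1)) (hquad r t h2)) (hlin r t h2)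
  by_contra hcon
  apply hne
  apply Polynomial.funext
  intro τ
  rw [Polynomial.eval_zero]
  by_contra hev
  apply hcon
  refine ⟨τ, ?_⟩
  simp only [Polynomial.eval_mul, Polynomial.eval_add, Polynomial.eval_sub, Polynomial.eval_pow,
    Polynomial.eval_X, Polynomial.eval_C, Polynomial.eval_one, mul_ne_zero_iff] at hev
  tauto

end Generic

open MvPolynomial

theorem dg_val (z : ℂˣ) : (dg z).1 = !![(z : ℂ), 0; 0, (z : ℂ)⁻¹] := by
  simp [dg]

theorem val_mul (A B : SL2C) : (A * B).1 = A.1 * B.1 := rfl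

theorem dg_mul (z w : ℂˣ) : dg (z * w) = dg z * dg w := by
  apply Subtype.ext
  rw [val_mul, dg_val, dg_val, dg_val]
  ext i j
  fin_cases i <;> fin_cases j <;> simp [mul_comm]

theorem dg_one : dg 1 = 1 := by
  ext i j
  fin_cases i <;> fin_cases j <;> simp [dg]

/-- `dg` as a homomorphism -/
noncomputable def dgH : ℂˣ →* SL2C where
  toFun := dg
  map_one' := dg_one
  map_mul' := dg_mul

theorem dg_pow (z : ℂˣ) (n : ℕ) : dg (z ^ n) = dg z ^ n := map_pow dgH z n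

theorem dg_inv (z : ℂˣ) : dg z⁻¹ = (dg z)⁻¹ := map_inv dgH z

theorem conj_dg_pow (P : SL2C) (z : ℂˣ) (n : ℕ) :
    (P * dg z * P⁻¹) ^ n = P * dg (z ^ n) * P⁻¹ := by
  rw [conj_pow, dg_pow]

/-- the Zariski closure -/
def ZC (Γ : Subgroup SL2C) : Set SL2C :=
  {g | ∀ f : MvPolynomial (Fin 2 × Fin 2) ℂ, (∀ h ∈ Γ, eval (entries h.1) f = 0) →
    eval (entries g.1) f = 0}

theorem zariskiDense_iff (Γ : Subgroup SL2C) : ZariskiDense Γ ↔ ∀ g, g ∈ ZC Γ :=
  ⟨fun h g f hf => h f hf g, fun h f hf g => h g f hf⟩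

theorem subset_ZC (Γ : Subgroup SL2C) {g : SL2C} (hg : g ∈ Γ) : g ∈ ZC Γ := fun _ hf => hf g hg

/-- substitution of `g * x` -/
noncomputable def lft (g : SL2C) : MvPolynomial (Fin 2 × Fin 2) ℂ →ₐ[ℂ]
    MvPolynomial (Fin 2 × Fin 2) ℂ :=
  bind₁ fun p => ∑ k, C (g.1 p.1 k) * X (k, p.2)

/-- substitution of `x * g` -/
noncomputable def rgt (g : SL2C) : MvPolynomial (Fin 2 × Fin 2) ℂ →ₐ[ℂ]
    MvPolynomial (Fin 2 × Fin 2) ℂ :=
  bind₁ fun p => ∑ k, X (p.1, k) * C (g.1 k p.2)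

theorem eval_lft (g h : SL2C) (f : MvPolynomial (Fin 2 × Fin 2) ℂ) :
    eval (entries h.1) (lft g f) = eval (entries (g * h).1) f := by
  have := eval₂Hom_bind₁ (RingHom.id ℂ) (entries h.1)
    (fun p : Fin 2 × Fin 2 => ∑ k, C (g.1 p.1 k) * X (k, p.2)) f
  unfold lft
  change eval₂Hom (RingHom.id ℂ) (entries h.1) _ = _
  rw [this]
  change eval _ f = _
  congr 1
  congr 1
  ext p
  simp [entries, Matrix.mul_apply]

theorem eval_rgt (g h : SL2C) (f : MvPolynomial (Fin 2 × Fin 2) ℂ) :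
    eval (entries h.1) (rgt g f) = eval (entries (h * g).1) f := by
  have := eval₂Hom_bind₁ (RingHom.id ℂ) (entries h.1)
    (fun p : Fin 2 × Fin 2 => ∑ k, X (p.1, k) * C (g.1 k p.2)) f
  unfold rgt
  change eval₂Hom (RingHom.id ℂ) (entries h.1) _ = _
  rw [this]
  change eval _ f = _
  congr 1
  congr 1
  ext p
  simp [entries, Matrix.mul_apply]

theorem ZC_mul {Γ : Subgroup SL2C} {g h : SL2C} (hg : g ∈ ZC Γ) (hh : h ∈ ZC Γ) :
    g * h ∈ ZC Γ := by
  intro f hf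
  rw [← eval_rgt]
  refine hg _ fun x hx => ?_
  rw [eval_rgt, ← eval_lft]
  refine hh _ fun y hy => ?_
  rw [eval_lft]
  exact hf _ (mul_mem hx hy)

theorem laurent (A B : SL2C) (f : MvPolynomial (Fin 2 × Fin 2) ℂ) :
    ∃ (N : ℕ) (q : Polynomial ℂ), ∀ z : ℂˣ,
      (z : ℂ) ^ N * eval (entries (A * dg z * B).1) f = q.eval (z : ℂ) := by
  induction f using MvPolynomial.induction_on with
  | C a => exact ⟨0, Polynomial.C a, fun z => by simp⟩
  | add p q hp hq =>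
    obtain ⟨N, u, hu⟩ := hp
    obtain ⟨M, v, hv⟩ := hq
    refine ⟨N + M, Polynomial.X ^ M * u + Polynomial.X ^ N * v, fun z => ?_⟩
    rw [map_add, Polynomial.eval_add, Polynomial.eval_mul, Polynomial.eval_mul,
      Polynomial.eval_pow, Polynomial.eval_pow, Polynomial.eval_X, ← hu, ← hv, pow_add]
    ring
  | mul_X p ij hp =>
    obtain ⟨N, u, hu⟩ := hp
    refine ⟨N + 1, u * (Polynomial.C (A.1 ij.1 0 * B.1 0 ij.2) * Polynomial.X ^ 2 +
      Polynomial.C (A.1 ij.1 1 * B.1 1 ij.2)), fun z => ?_⟩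
    rw [map_mul, eval_X, Polynomial.eval_mul, ← hu, pow_succ]
    have : (z : ℂ) * entries (A * dg z * B).1 ij =
        (Polynomial.C (A.1 ij.1 0 * B.1 0 ij.2) * Polynomial.X ^ 2 +
      Polynomial.C (A.1 ij.1 1 * B.1 1 ij.2)).eval (z : ℂ) := by
      have hz : (z : ℂ) ≠ 0 := z.ne_zero
      simp only [entries, val_mul, dg_val, Matrix.mul_apply,
        Fin.sum_univ_two, Matrix.of_apply, Matrix.cons_val', Matrix.cons_val_zero,
        Matrix.cons_val_one, Matrix.cons_val_fin_one,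
        Polynomial.eval_add, Polynomial.eval_mul, Polynomial.eval_C, Polynomial.eval_pow,
        Polynomial.eval_X]
      field_simp
      ring
    rw [← this]
    ring

theorem pow_injective_of_norm_ne_one {z : ℂˣ} (hz : ‖(z : ℂ)‖ ≠ 1) :
    Function.Injective fun n : ℕ => (z : ℂ) ^ n := by
  intro m n hmn
  have h : ‖(z : ℂ)‖ ^ m = ‖(z : ℂ)‖ ^ n := by
    rw [← norm_pow, ← norm_pow]
    exact congrArg norm hmn
  exact (pow_right_injective₀ (norm_pos_iff.2 z.ne_zero) hz) h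

theorem torus_mem {Γ : Subgroup SL2C} {P : SL2C} {z₀ : ℂˣ} (hz : ‖(z₀ : ℂ)‖ ≠ 1)
    (hΓ : P * dg z₀ * P⁻¹ ∈ Γ) (z : ℂˣ) : P * dg z * P⁻¹ ∈ ZC Γ := by
  intro f hf
  obtain ⟨N, q, hq⟩ := laurent P P⁻¹ f
  have hq0 : q = 0 := by
    apply Polynomial.eq_zero_of_infinite_isRoot
    apply Set.infinite_of_injective_forall_mem (f := fun n : ℕ => (z₀ : ℂ) ^ n)
      (pow_injective_of_norm_ne_one hz)
    intro n
    show q.eval ((z₀ : ℂ) ^ n) = 0
    have := hq (z₀ ^ n)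
    rw [← conj_dg_pow, hf _ (pow_mem hΓ n), mul_zero] at this
    rw [← Units.val_pow_eq_pow_val, ← this]
  have h1 := hq z
  rw [hq0, Polynomial.eval_zero] at h1
  exact (mul_eq_zero.1 h1).resolve_left (pow_ne_zero _ z.ne_zero)

theorem inv_val (A : SL2C) : (A⁻¹).1 = !![A.1 1 1, -A.1 0 1; -A.1 1 0, A.1 0 0] := by
  rw [Matrix.SpecialLinearGroup.SL2_inv_expl]
  rfl

theorem det_eq (A : SL2C) : A.1 0 0 * A.1 1 1 - A.1 0 1 * A.1 1 0 = 1 := by
  have := A.2
  rwa [Matrix.det_fin_two] at this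

theorem exists_sqrt (x : ℂ) : ∃ y, y ^ 2 = x := IsAlgClosed.exists_pow_nat_eq x (by norm_num)

theorem exists_add_inv (κ : ℂ) : ∃ u : ℂ, u ≠ 0 ∧ u + u⁻¹ = κ := by
  obtain ⟨v, hv⟩ := exists_sqrt ((κ / 2) ^ 2 - 1)
  have hne : κ / 2 + v ≠ 0 := by
    intro h
    have h1 : v = -(κ / 2) := by linear_combination h
    rw [h1] at hv
    have : (0 : ℂ) = -1 := by linear_combination hv
    norm_num at this
  refine ⟨κ / 2 + v, hne, ?_⟩
  have h2 : (κ / 2 + v)⁻¹ = κ / 2 - v := by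
    apply inv_eq_of_mul_eq_one_right
    linear_combination -hv
  rw [h2]
  ring

theorem solve_double_coset {R M : SL2C} (hR : ∀ i j, R.1 i j ≠ 0) (hM : ∀ i j, M.1 i j ≠ 0) :
    ∃ d₁ s d₂ : ℂˣ, M = dg d₁ * (R * dg s * R⁻¹) * dg d₂ := by
  set x1 := R.1 0 0 with hx1
  set y1 := R.1 0 1 with hy1
  set x2 := R.1 1 0 with hx2
  set y2 := R.1 1 1 with hy2
  have hdR : x1 * y2 - y1 * x2 = 1 := det_eq R
  set p := M.1 0 0 with hp
  set q := M.1 0 1 with hq
  set r := M.1 1 0 with hr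
  set t := M.1 1 1 with ht
  have hdM : p * t - q * r = 1 := det_eq M
  have hx1' : x1 ≠ 0 := hR 0 0
  have hy1' : y1 ≠ 0 := hR 0 1
  have hx2' : x2 ≠ 0 := hR 1 0
  have hy2' : y2 ≠ 0 := hR 1 1
  have hp' : p ≠ 0 := hM 0 0
  have hq' : q ≠ 0 := hM 0 1
  have hr' : r ≠ 0 := hM 1 0
  have ht' : t ≠ 0 := hM 1 1
  obtain ⟨u, hu0, hu⟩ := exists_add_inv
    (((x1 * y2) ^ 2 + (y1 * x2) ^ 2 - p * t) / ((x1 * y2) * (y1 * x2)))
  obtain ⟨s, hs⟩ := exists_sqrt u
  have hs0 : s ≠ 0 := by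
    rintro rfl
    apply hu0
    rw [← hs]
    ring
  -- entries of `R * dg s * R⁻¹`
  set p' := x1 * y2 * s - y1 * x2 * s⁻¹ with hp1
  set q' := -(x1 * y1 * s) + x1 * y1 * s⁻¹ with hq1
  set r' := x2 * y2 * s - x2 * y2 * s⁻¹ with hr1
  set t' := -(x2 * y1 * s) + x1 * y2 * s⁻¹ with ht1
  have hpt : p' * t' = p * t := by
    have h1 : p' * t' = (x1 * y2) ^ 2 + (y1 * x2) ^ 2 -
        (x1 * y2) * (y1 * x2) * (u + u⁻¹) := by
      rw [hp1, ht1, ← hs]
      field_simp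
      ring
    rw [h1, hu]
    field_simp
    ring
  have hqr : q' * r' = q * r := by
    have h1 : q' * r' = p' * t' - (x1 * y2 - y1 * x2) ^ 2 := by
      rw [hp1, ht1, hq1, hr1]
      field_simp
      ring
    rw [h1, hpt, hdR]
    linear_combination hdM
  have hp'0 : p' ≠ 0 := fun h => (mul_ne_zero hp' ht') (by rw [← hpt, h, zero_mul])
  have hq'0 : q' ≠ 0 := fun h => (mul_ne_zero hq' hr') (by rw [← hqr, h, zero_mul])
  obtain ⟨d, hd⟩ := exists_sqrt (p * q / (p' * q'))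
  have hd0 : d ≠ 0 := by
    rintro rfl
    have : p * q / (p' * q') ≠ 0 := div_ne_zero (mul_ne_zero hp' hq') (mul_ne_zero hp'0 hq'0)
    apply this
    rw [← hd]
    ring
  have hd' : d ^ 2 * (p' * q') = p * q := by
    rw [hd]
    field_simp
  refine ⟨Units.mk0 d hd0, Units.mk0 s hs0, Units.mk0 (p / (p' * d))
    (div_ne_zero hp' (mul_ne_zero hp'0 hd0)), ?_⟩
  have hmid : (R * dg (Units.mk0 s hs0) * R⁻¹).1 = !![p', q'; r', t'] := by
    rw [val_mul, val_mul, dg_val, inv_val, ← hx1, ← hy1, ← hx2, ← hy2]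
    ext i j
    fin_cases i <;> fin_cases j <;>
      simp [Matrix.mul_apply, Fin.sum_univ_two, ← hx1, ← hy1, ← hx2, ← hy2, hp1, hq1, hr1, ht1]
        <;> ring
  apply Subtype.ext
  rw [val_mul, val_mul, dg_val, dg_val, hmid]
  ext i j
  fin_cases i <;> fin_cases j
  · simp [← hp]
    field_simp
  · simp [← hq]
    field_simp
    linear_combination -hd'
  · simp [← hr]
    field_simp
    apply mul_right_cancel₀ hq'0
    linear_combination r * hd' - p * hqr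
  · simp [← ht]
    field_simp
    linear_combination -hpt

theorem dense_of_two {Γ : Subgroup SL2C} {P Q : SL2C} {z w : ℂˣ} (hz : ‖(z : ℂ)‖ ≠ 1)
    (hw : ‖(w : ℂ)‖ ≠ 1) (hP : P * dg z * P⁻¹ ∈ Γ) (hQ : Q * dg w * Q⁻¹ ∈ Γ)
    (hne : ∀ i j, (P⁻¹ * Q).1 i j ≠ 0) : ZariskiDense Γ := by
  rw [zariskiDense_iff]
  have key : ∀ M : SL2C, (∀ i j, (P⁻¹ * M * P).1 i j ≠ 0) → M ∈ ZC Γ := by
    intro M hM
    obtain ⟨d₁, s, d₂, h⟩ := solve_double_coset hne hM
    have : M = (P * dg d₁ * P⁻¹) * (Q * dg s * Q⁻¹) * (P * dg d₂ * P⁻¹) := by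
      have h1 : M = P * (P⁻¹ * M * P) * P⁻¹ := by group
      rw [h1, h]
      group
    rw [this]
    exact ZC_mul (ZC_mul (torus_mem hz hP d₁) (torus_mem hw hQ s)) (torus_mem hz hP d₂)
  intro M
  set A : SL2C := P⁻¹ * M * P with hA
  have hdA := det_eq A
  obtain ⟨τ, h0, h1, h2, h3, h4, h5⟩ := exists_generic (p := A.1 0 0) (q := A.1 0 1)
    (r := A.1 1 0) (t := A.1 1 1) (by
      by_contra hcon
      push Not at hcon
      rw [hcon.1, hcon.2] at hdA
      simp at hdA) (by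
      by_contra hcon
      push Not at hcon
      rw [hcon.1, hcon.2] at hdA
      simp at hdA)
  let N : SL2C := ⟨!![1, τ; τ, 1 + τ ^ 2], by rw [Matrix.det_fin_two_of]; ring⟩
  have hN : N.1 = !![1, τ; τ, 1 + τ ^ 2] := rfl
  have hM : M = (P * (A * N⁻¹) * P⁻¹) * (P * N * P⁻¹) := by
    rw [hA]
    group
  rw [hM]
  apply ZC_mul
  · apply key
    have : P⁻¹ * (P * (A * N⁻¹) * P⁻¹) * P = A * N⁻¹ := by group
    rw [this]
    intro i j
    rw [val_mul, inv_val, hN]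
    fin_cases i <;> fin_cases j
    · simpa [Matrix.mul_apply, Fin.sum_univ_two, sub_eq_add_neg] using h2
    · have : A.1 0 1 - A.1 0 0 * τ = -(A.1 0 0 * τ) + A.1 0 1 := by ring
      rw [this] at h3
      simpa [Matrix.mul_apply, Fin.sum_univ_two] using h3
    · simpa [Matrix.mul_apply, Fin.sum_univ_two, sub_eq_add_neg] using h4
    · have : A.1 1 1 - A.1 1 0 * τ = -(A.1 1 0 * τ) + A.1 1 1 := by ring
      rw [this] at h5
      simpa [Matrix.mul_apply, Fin.sum_univ_two] using h5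
  · apply key
    have : P⁻¹ * (P * N * P⁻¹) * P = N := by group
    rw [this]
    intro i j
    rw [hN]
    fin_cases i <;> fin_cases j
    · simp
    · simpa using h0
    · simpa using h0
    · simpa using h1

end Pool.Agent.MP_1921ec_al
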