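import Pool.Agent.MP_1921ec_al.Datum
import Pool.Agent.MP_1921ec_al.Counting

/-!
The counterexample.
-/

open IsDedekindDomain NumberField

namespace Pool.Agent.MP_1921ec_al

theorem ZariskiDense.mono {Γ Γ' : Subgroup SL2C} (h : Γ ≤ Γ') (hd : ZariskiDense Γ) :
    ZariskiDense Γ' := fun f hf => hd f fun g hg => hf g (h hg)

theorem not_finOrder {P : SL2C} {z : ℂˣ} (hz : ‖(z : ℂ)‖ ≠ 1) :
    ¬ IsOfFinOrder (P * dg z * P⁻¹) := by
  rw [isOfFinOrder_iff_pow_eq_one]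
  rintro ⟨n, hn, h⟩
  rw [conj_dg_pow, mul_inv_eq_one] at h
  have h1 : dg (z ^ n) = 1 := by
    have := mul_left_cancel (h.trans (mul_one P).symm)
    exact this
  have h2 : (z : ℂ) ^ n = 1 := by
    have := congrArg (fun g : SL2C => g.1 0 0) h1
    simpa [dg_val] using this
  apply hz
  have h3 : ‖(z : ℂ)‖ ^ n = 1 := by rw [← norm_pow, h2, norm_one]
  exact (pow_eq_one_iff_of_nonneg (norm_nonneg _) hn.ne').1 h3

theorem trace_conj (P : SL2C) (z : ℂˣ) :
    (P * dg z * P⁻¹).1 0 0 + (P * dg z * P⁻¹).1 1 1 = (z : ℂ) + (z : ℂ)⁻¹ := by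
  have h1 : ((P * dg z * P⁻¹).1).trace = (dg z).1.trace := by
    rw [val_mul, val_mul, Matrix.trace_mul_cycle]
    have : (P⁻¹).1 * P.1 = 1 := congrArg Subtype.val (inv_mul_cancel P)
    rw [this, Matrix.one_mul]
  rw [Matrix.trace_fin_two, Matrix.trace_fin_two] at h1
  rw [h1]
  simp [dg_val]

theorem sq_trace_mem {g : SL2C} (hg : g ∈ G1) : (g.1 0 0 + g.1 1 1) ^ 2 ∈ RS := by
  have h := (mem_G1.1 hg).1
  have h1 := h 0 1 0 1
  have h2 := h 0 0 0 0
  have h3 := h 1 0 1 0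
  rw [inv_val'] at h1 h2 h3
  have e : (g.1 0 0 + g.1 1 1) ^ 2 = g.1 0 0 * g.1 0 0 + (g.1 0 0 * g.1 1 1 + g.1 0 0 * g.1 1 1) +
      g.1 1 1 * g.1 1 1 := by ring
  rw [e]
  exact add_mem (add_mem h1 (add_mem h2 h2)) h3

theorem norm_ne_one {P : SL2C} {z : ℂˣ} (hmem : P * dg z * P⁻¹ ∈ G1)
    (hinf : ¬ IsOfFinOrder (P * dg z * P⁻¹)) : ‖(z : ℂ)‖ ≠ 1 := by
  intro hz
  apply hinf
  have h1 := sq_trace_mem hmem
  rw [trace_conj] at h1
  have hconj : (z : ℂ)⁻¹ = (starRingEnd ℂ) (z : ℂ) := Complex.inv_eq_conj hz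
  have hre : (z : ℂ) + (z : ℂ)⁻¹ = ((2 * (z : ℂ).re : ℝ) : ℂ) := by
    rw [hconj, Complex.add_conj]
    
  rw [hre] at h1
  obtain ⟨n, hn⟩ := real_mem_RS h1 (by rw [← Complex.ofReal_pow]; exact Complex.ofReal_im _)
  have hn' : (2 * (z : ℂ).re) ^ 2 = (n : ℝ) := by exact_mod_cast hn
  have hle : |(z : ℂ).re| ≤ 1 := (Complex.abs_re_le_norm _).trans hz.le
  have hle2 : (z : ℂ).re ^ 2 ≤ 1 := by
    rw [← sq_abs]
    exact pow_le_one₀ (abs_nonneg _) hle
  have h0n : 0 ≤ n := by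
    have : (0 : ℝ) ≤ n := by rw [← hn']; positivity
    exact_mod_cast this
  have hn4 : n ≤ 4 := by
    have : (n : ℝ) ≤ 4 := by rw [← hn']; nlinarith
    exact_mod_cast this
  have hz0 : (z : ℂ) ≠ 0 := z.ne_zero
  have hu : ((z : ℂ) ^ 2) ^ 2 - (n - 2) * (z : ℂ) ^ 2 + 1 = 0 := by
    have h2 : ((z : ℂ) + (z : ℂ)⁻¹) ^ 2 = n := by rw [hre, ← hn]
    field_simp at h2
    linear_combination h2
  have h24 : ((z : ℂ) ^ 2) ^ 12 = 1 := by
    set u := (z : ℂ) ^ 2
    interval_cases n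
    · have : (u + 1) ^ 2 = 0 := by
        push_cast at hu
        linear_combination hu
      have h := pow_eq_zero_iff (two_ne_zero) |>.1 this
      have h' : u = -1 := by linear_combination h
      rw [h']
      norm_num
    · have h3 : u ^ 3 = 1 := by
        push_cast at hu
        linear_combination (u - 1) * hu
      calc u ^ 12 = (u ^ 3) ^ 4 := by ring
        _ = 1 := by rw [h3]; norm_num
    · have h3 : u ^ 2 = -1 := by
        push_cast at hu
        linear_combination hu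
      calc u ^ 12 = (u ^ 2) ^ 6 := by ring
        _ = 1 := by rw [h3]; norm_num
    · have h3 : u ^ 3 = -1 := by
        push_cast at hu
        linear_combination (u + 1) * hu
      calc u ^ 12 = (u ^ 3) ^ 4 := by ring
        _ = 1 := by rw [h3]; norm_num
    · have : (u - 1) ^ 2 = 0 := by
        push_cast at hu
        linear_combination hu
      have h := pow_eq_zero_iff (two_ne_zero) |>.1 this
      have h' : u = 1 := by linear_combination h
      rw [h']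
      norm_num
  rw [isOfFinOrder_iff_pow_eq_one]
  refine ⟨24, by norm_num, ?_⟩
  rw [conj_dg_pow]
  have : z ^ 24 = 1 := by
    apply Units.ext
    rw [Units.val_pow_eq_pow_val, Units.val_one, ← h24]
    ring
  rw [this, dg_one, mul_one, mul_inv_cancel]

/-- the Weyl element -/
noncomputable def WW (m : ℂ) : SL2C := ⟨!![0, -1; 1, -m], by simp [Matrix.det_fin_two_of]⟩

theorem dg_swap (z : ℂˣ) : dg z = WW 0 * dg z⁻¹ * (WW 0)⁻¹ := by
  rw [eq_mul_inv_iff_mul_eq]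
  apply Subtype.ext
  rw [val_mul, val_mul, dg_val, dg_val]
  ext i j
  fin_cases i <;> fin_cases j <;> simp [WW]

theorem exists_rep {g : SL2C} (hg : g ∈ G1) (hs : IsSemisimpleElt g) (hinf : ¬ IsOfFinOrder g) :
    ∃ (P : SL2C) (z : ℂˣ), g = P * dg z * P⁻¹ ∧ 1 < ‖(z : ℂ)‖ := by
  obtain ⟨P, z, rfl⟩ := hs
  have h := norm_ne_one hg hinf
  rcases lt_or_gt_of_ne h with h1 | h1
  · refine ⟨P * WW 0, z⁻¹, ?_, ?_⟩
    · conv_lhs => rw [dg_swap]
      group
    · rw [Units.val_inv_eq_inv_val, norm_inv]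
      exact (one_lt_inv₀ (norm_pos_iff.2 z.ne_zero)).2 h1
  · exact ⟨P, z, rfl, h1⟩

theorem WW_mul (m : ℂ) (P : SL2C) (j : Fin 2) : (WW m * P).1 1 j = P.1 0 j - m * P.1 1 j := by
  rw [val_mul, Matrix.mul_apply, Fin.sum_univ_two]
  simp [WW]
  ring

theorem exists_WW (P : SL2C) : ∃ m : ℕ, (WW m * P).1 1 0 ≠ 0 ∧ (WW m * P).1 1 1 ≠ 0 := by
  have hdet := P.2
  rw [Matrix.det_fin_two] at hdet
  -- two different bad values are impossible in one column
  have key : ∀ j : Fin 2, ∀ m m' : ℕ, m ≠ m' → (WW m * P).1 1 j = 0 → (WW m' * P).1 1 j = 0 →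
      False := by
    intro j m m' hm h h'
    rw [WW_mul] at h h'
    have hm' : ((m : ℂ) - m') ≠ 0 := sub_ne_zero.2 (by exact_mod_cast hm)
    have h1 : P.1 1 j = 0 := by
      have : ((m : ℂ) - m') * P.1 1 j = 0 := by linear_combination h' - h
      exact (mul_eq_zero.1 this).resolve_left hm'
    have h0 : P.1 0 j = 0 := by rw [h1, mul_zero, sub_zero] at h; exact h
    have hdet' : P.1 0 0 * P.1 1 1 - P.1 0 1 * P.1 1 0 = 0 := by
      fin_cases j
      · simp only [Fin.zero_eta] at h0 h1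
        rw [h0, h1]
        ring
      · simp only [Fin.mk_one] at h0 h1
        rw [h0, h1]
        ring
    rw [hdet] at hdet'
    exact one_ne_zero hdet'
  by_contra hcon
  push Not at hcon
  by_cases a0 : (WW ((0 : ℕ) : ℂ) * P).1 1 0 = 0
  · have a1 : (WW ((1 : ℕ) : ℂ) * P).1 1 0 ≠ 0 := fun h => key 0 0 1 (by norm_num) a0 h
    have a2 : (WW ((2 : ℕ) : ℂ) * P).1 1 0 ≠ 0 := fun h => key 0 0 2 (by norm_num) a0 h
    exact key 1 1 2 (by norm_num) (hcon 1 a1) (hcon 2 a2)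
  · have b0 := hcon 0 a0
    have b1 : (WW ((1 : ℕ) : ℂ) * P).1 1 1 ≠ 0 := fun h => key 1 0 1 (by norm_num) b0 h
    have b2 : (WW ((2 : ℕ) : ℂ) * P).1 1 1 ≠ 0 := fun h => key 1 0 2 (by norm_num) b0 h
    have a1 : (WW ((1 : ℕ) : ℂ) * P).1 1 0 = 0 := by
      by_contra h
      exact b1 (hcon 1 h)
    have a2 : (WW ((2 : ℕ) : ℂ) * P).1 1 0 = 0 := by
      by_contra h
      exact b2 (hcon 2 h)
    exact key 0 1 2 (by norm_num) a1 a2

theorem WW_mem (m : ℕ) : WW m ∈ G1 := by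
  apply mem_G1_of_entries
  intro i j
  fin_cases i <;> fin_cases j
  · exact zero_mem _
  · exact neg_mem (one_mem _)
  · exact one_mem _
  · exact neg_mem (natCast_mem RS m)

theorem TT_mem (b : ℤ) : TT b ∈ G1 := by
  apply mem_G1_of_entries
  intro i j
  fin_cases i <;> fin_cases j
  · exact one_mem _
  · exact intCast_mem RS b
  · exact zero_mem _
  · exact one_mem _

theorem RS_AA {x : ℂ} (hx : x ∈ RS) : x ∈ AA := subset_AA KK (RS_subset_KK hx)

theorem G1_countable : (G1 : Set SL2C).Countable := by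
  have hinj : Set.InjOn (fun g : SL2C => g.1) (G1 : Set SL2C) :=
    fun _ _ _ _ h => Subtype.ext h
  refine Set.MapsTo.countable_of_injOn (t := MM 2) ?_ hinj (MM_countable 2)
  intro g hg i j
  have h := (mem_G1.1 hg).1
  have key : (g.1 i j) ^ 2 ∈ RS := by
    fin_cases i <;> fin_cases j
    · have h1 := h 0 1 0 1
      rw [inv_val'] at h1
      rw [sq]
      exact h1
    · have h1 := h 0 1 1 0
      rw [inv_val'] at h1
      rw [sq]
      have := neg_mem h1
      simpa using this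
    · have h1 := h 1 0 0 1
      rw [inv_val'] at h1
      rw [sq]
      have := neg_mem h1
      simpa using this
    · have h1 := h 1 0 1 0
      rw [inv_val'] at h1
      rw [sq]
      exact h1
  exact IsAlgebraic.of_pow two_pos (RS_AA key)

/-- the element `diag(2 + i, (2 + i)⁻¹)` -/
noncomputable def piU : ℂˣ := Units.mk0 (2 + Complex.I) two_add_I_ne

theorem norm_piU : 1 < ‖(piU : ℂ)‖ := by
  have h : |(2 + Complex.I : ℂ).re| ≤ ‖(2 + Complex.I : ℂ)‖ := Complex.abs_re_le_norm _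
  have h' : (2 + Complex.I : ℂ).re = 2 := by simp
  rw [h'] at h
  have h2 : ‖(piU : ℂ)‖ = ‖(2 + Complex.I : ℂ)‖ := rfl
  rw [h2]
  rw [abs_of_pos two_pos] at h
  linarith

theorem dg_piU_mem : dg piU ∈ G1 := by
  apply mem_G1_of_entries
  intro i j
  rw [dg_val]
  fin_cases i <;> fin_cases j
  · exact pi_mem_RS
  · exact zero_mem _
  · exact zero_mem _
  · exact pi_inv_mem_RS

theorem main : ∃ Γ₂ : Subgroup SL2C, Γ₂ ≤ G1 ∧ ZariskiDense G1 ∧ ZariskiDense Γ₂ ∧
    WeaklyCommensurable G1 Γ₂ ∧ ¬ IsSArithmetic Γ₂ := by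
  -- enumeration of the semisimple elements of infinite order
  let X : Set SL2C := {g | g ∈ G1 ∧ IsSemisimpleElt g ∧ ¬ IsOfFinOrder g}
  have hXc : X.Countable := G1_countable.mono fun g hg => hg.1
  have hXn : X.Nonempty := by
    refine ⟨dg piU, dg_piU_mem, ⟨1, piU, by simp⟩, ?_⟩
    have := not_finOrder (P := 1) norm_piU.ne'
    simpa using this
  obtain ⟨f, hf⟩ := hXc.exists_eq_range hXn
  have hfX : ∀ n, f n ∈ X := fun n => hf ▸ Set.mem_range_self n
  have hrep : ∀ n, ∃ (P : SL2C) (z : ℂˣ), f n = P * dg z * P⁻¹ ∧ 1 < ‖(z : ℂ)‖ :=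
    fun n => exists_rep (hfX n).1 (hfX n).2.1 (hfX n).2.2
  choose P z hPz hz using hrep
  choose m hm0 hm1 using fun n => exists_WW (P n)
  obtain ⟨b, k, hk, hinj, hne⟩ := exists_schottky (fun n => WW (m n) * P n) z hz hm0 hm1
  set Q : ℕ → SL2C := fun n => TT (b n) * (WW (m n) * P n) with hQ
  set a : ℕ → SL2C := fun n => Q n * dg (z n ^ k n) * (Q n)⁻¹ with ha
  have hnorm : ∀ n (l : ℕ), 0 < l → 1 < ‖((z n ^ l : ℂˣ) : ℂ)‖ := by
    intro n l hl
    rw [Units.val_pow_eq_pow_val, norm_pow]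
    exact one_lt_pow₀ (hz n) hl.ne'
  obtain ⟨e, he⟩ := exists_nonarithmetic (a := a) hinj (P := Q 0) (Q := Q 1) (z := z 0 ^ k 0)
    (w := z 1 ^ k 1) (hnorm 0 _ (hk 0)).ne' (hnorm 1 _ (hk 1)).ne' rfl rfl hne
  have ha_mem : ∀ n, a n ∈ G1 := by
    intro n
    have h1 : a n = (TT (b n) * WW (m n)) * (f n) ^ k n * (TT (b n) * WW (m n))⁻¹ := by
      rw [hPz n, conj_dg_pow]
      simp only [ha, hQ]
      group
    rw [h1]
    have h2 : TT (b n) * WW (m n) ∈ G1 := mul_mem (TT_mem _) (WW_mem _)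
    exact mul_mem (mul_mem h2 (pow_mem (hfX n).1 _)) (inv_mem h2)
  have hle : FF a e ≤ G1 := by
    rw [FF, Subgroup.closure_le]
    rintro _ ⟨n, rfl⟩
    exact pow_mem (ha_mem n) _
  have hdense : ZariskiDense (FF a e) := by
    have h0 := sq_mem_FF a e 0
    have h1 := sq_mem_FF a e 1
    rw [ha] at h0 h1
    simp only at h0 h1
    rw [conj_dg_pow] at h0 h1
    refine dense_of_two ?_ ?_ h0 h1 hne
    · rw [← pow_mul]
      exact (hnorm 0 _ (Nat.mul_pos (hk 0) two_pos)).ne'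
    · rw [← pow_mul]
      exact (hnorm 1 _ (Nat.mul_pos (hk 1) two_pos)).ne'
  refine ⟨FF a e, hle, hdense.mono hle, hdense, ⟨?_, ?_⟩, he⟩
  · intro g hg hs hinf
    obtain ⟨n, rfl⟩ : g ∈ Set.range f := hf ▸ ⟨hg, hs, hinf⟩
    have hex : 0 < ex e n := by unfold ex; split_ifs <;> norm_num
    have heq : a n ^ ex e n = Q n * dg (z n ^ (k n * ex e n)) * (Q n)⁻¹ := by
      rw [ha]
      simp only
      rw [conj_dg_pow, pow_mul]
    have hpos : 0 < k n * ex e n := Nat.mul_pos (hk n) hex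
    refine ⟨a n ^ ex e n, Subgroup.subset_closure ⟨n, rfl⟩, ⟨_, _, heq⟩, ?_, ?_⟩
    · rw [heq]
      exact not_finOrder (hnorm n _ hpos).ne'
    · refine ⟨P n, Q n, z n, z n ^ (k n * ex e n), ((k n * ex e n : ℕ) : ℤ), 1, hPz n, heq, ?_, ?_⟩
      · rw [zpow_natCast, zpow_one]
      · rw [zpow_natCast]
        intro h
        have := hnorm n _ hpos
        rw [h] at this
        simp at this
  · intro g hg hs hinf
    refine ⟨g, hle hg, hs, hinf, ?_⟩
    obtain ⟨P, z, rfl⟩ := hs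
    refine ⟨P, P, z, z, 1, 1, rfl, rfl, rfl, ?_⟩
    rw [zpow_one]
    intro h
    apply hinf
    rw [h, dg_one, mul_one, mul_inv_cancel]
    exact IsOfFinOrder.one

end Pool.Agent.MP_1921ec_al
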