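import Pool.Agent.MP_1921ec_al.Defs

/-!
The ring of `S`-integers of `ℚ(i)`, where `S` consists of the places dividing `2 + i`.
-/

open IsDedekindDomain NumberField

namespace Pool.Agent.MP_1921ec_al

/-- the field `ℚ(i)` -/
def KK : Subfield ℂ where
  carrier := {z | ∃ a b : ℚ, z = a + b * Complex.I}
  mul_mem' := by
    rintro _ _ ⟨a, b, rfl⟩ ⟨c, d, rfl⟩
    refine ⟨a * c - b * d, a * d + b * c, ?_⟩
    push_cast
    linear_combination ((b : ℂ) * d) * Complex.I_sq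
  one_mem' := ⟨1, 0, by simp⟩
  add_mem' := by
    rintro _ _ ⟨a, b, rfl⟩ ⟨c, d, rfl⟩
    refine ⟨a + c, b + d, ?_⟩
    push_cast
    ring
  zero_mem' := ⟨0, 0, by simp⟩
  neg_mem' := by
    rintro _ ⟨a, b, rfl⟩
    refine ⟨-a, -b, ?_⟩
    push_cast
    ring
  inv_mem' := by
    rintro _ ⟨a, b, rfl⟩
    by_cases h : a ^ 2 + b ^ 2 = 0
    · have ha : a = 0 := by nlinarith [sq_nonneg a, sq_nonneg b]
      have hb : b = 0 := by nlinarith [sq_nonneg a, sq_nonneg b]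
      exact ⟨0, 0, by simp [ha, hb]⟩
    · refine ⟨a / (a ^ 2 + b ^ 2), -b / (a ^ 2 + b ^ 2), ?_⟩
      have h' : (a ^ 2 + b ^ 2 : ℂ) ≠ 0 := by exact_mod_cast h
      have hz : ((a : ℂ) + b * Complex.I) ≠ 0 := by
        intro h0
        apply h'
        have : (a ^ 2 + b ^ 2 : ℂ) = (a + b * Complex.I) * (a - b * Complex.I) := by
          linear_combination (b ^ 2 : ℂ) * Complex.I_sq
        rw [this, h0, zero_mul]
      push_cast
      rw [inv_eq_iff_eq_inv, eq_comm, inv_eq_iff_eq_inv, eq_comm]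
      field_simp
      linear_combination (b ^ 2 : ℂ) * Complex.I_sq

theorem I_mem_KK : Complex.I ∈ KK := ⟨0, 1, by simp⟩

/-- `i` as an element of `ℚ(i)` -/
noncomputable def iK : KK := ⟨Complex.I, I_mem_KK⟩

instance instNumberFieldKK : NumberField KK where
  to_charZero := inferInstance
  to_finiteDimensional := by
    let f : (ℚ × ℚ) →ₗ[ℚ] KK :=
      (LinearMap.toSpanSingleton ℚ KK 1).coprod (LinearMap.toSpanSingleton ℚ KK iK)
    have hf : Function.Surjective f := by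
      rintro ⟨_, a, b, rfl⟩
      refine ⟨(a, b), ?_⟩
      apply Subtype.ext
      simp [f, iK, Algebra.smul_def]
    exact Module.Finite.of_surjective f hf

/-- integrality can be checked in `ℂ` -/
theorem isIntegral_KK {x : KK} : IsIntegral ℤ x ↔ IsIntegral ℤ (x : ℂ) :=
  (isIntegral_algHom_iff (KK.subtype).toIntAlgHom KK.subtype_injective).symm

theorem isIntegral_I : IsIntegral ℤ Complex.I := by
  refine ⟨Polynomial.X ^ 2 + 1, ?_, by simp⟩
  exact Polynomial.monic_X_pow_add_C (1 : ℤ) two_ne_zero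

theorem isIntegral_two_add : IsIntegral ℤ (2 + Complex.I) :=
  (isIntegral_algebraMap (R := ℤ) (A := ℂ) (x := 2)).add isIntegral_I

theorem isIntegral_two_sub : IsIntegral ℤ (2 - Complex.I) :=
  (isIntegral_algebraMap (R := ℤ) (A := ℂ) (x := 2)).sub isIntegral_I

theorem piK_mem : 2 + Complex.I ∈ KK := ⟨2, 1, by simp⟩

/-- `2 + i` in the ring of integers -/
noncomputable def piO : 𝓞 KK := ⟨⟨2 + Complex.I, piK_mem⟩, isIntegral_KK.2 isIntegral_two_add⟩

theorem piO_coe : (((piO : 𝓞 KK) : KK) : ℂ) = 2 + Complex.I := rfl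

theorem two_add_I_ne : (2 + Complex.I : ℂ) ≠ 0 := by
  intro h
  have := congrArg Complex.im h
  simp at this

theorem two_sub_I_ne : (2 - Complex.I : ℂ) ≠ 0 := by
  intro h
  have := congrArg Complex.im h
  simp at this

theorem piO_ne : (piO : 𝓞 KK) ≠ 0 := by
  intro h
  apply two_add_I_ne
  rw [← piO_coe, h]
  simp

theorem span_piO_ne : (Ideal.span {piO} : Ideal (𝓞 KK)) ≠ 0 := by
  rw [Ideal.zero_eq_bot, Ne, Ideal.span_singleton_eq_bot]
  exact piO_ne

/-- the places dividing `2 + i` -/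
noncomputable def SS : Finset (HeightOneSpectrum (𝓞 KK)) :=
  (Ideal.finite_factors span_piO_ne).toFinset

theorem mem_SS {v : HeightOneSpectrum (𝓞 KK)} :
    v ∈ SS ↔ v.valuation KK ((piO : 𝓞 KK) : KK) < 1 := by
  rw [SS, Set.Finite.mem_toFinset, Set.mem_ofPred_eq]
  exact (HeightOneSpectrum.valuation_lt_one_iff_dvd v piO).symm

theorem not_mem_SS {v : HeightOneSpectrum (𝓞 KK)} (hv : v ∉ SS) :
    v.valuation KK ((piO : 𝓞 KK) : KK) = 1 := by
  rw [mem_SS, not_lt] at hv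
  exact le_antisymm (HeightOneSpectrum.valuation_le_one v piO) hv

theorem not_isUnit_piO : ¬ IsUnit (piO : 𝓞 KK) := by
  rintro ⟨u, hu⟩
  have h1 : ((((u⁻¹ : (𝓞 KK)ˣ) : 𝓞 KK) : KK) : ℂ) * (2 + Complex.I) = 1 := by
    rw [← piO_coe, ← hu]
    have : ((u⁻¹ : (𝓞 KK)ˣ) : 𝓞 KK) * (u : 𝓞 KK) = 1 := Units.inv_mul u
    exact_mod_cast congrArg (fun x : 𝓞 KK => ((x : KK) : ℂ)) this
  have h2 : IsIntegral ℤ ((2 + Complex.I)⁻¹ : ℂ) := by
    rw [← eq_inv_of_mul_eq_one_left h1]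
    exact isIntegral_KK.1 (RingOfIntegers.isIntegral_coe _)
  have h3 : IsIntegral ℤ ((2 - Complex.I)⁻¹ : ℂ) := by
    have := h2.map (starRingEnd ℂ).toIntAlgHom
    have h4 : (starRingEnd ℂ).toIntAlgHom ((2 + Complex.I)⁻¹ : ℂ) = (2 - Complex.I)⁻¹ := by
      change (starRingEnd ℂ) ((2 + Complex.I)⁻¹ : ℂ) = (2 - Complex.I)⁻¹
      rw [map_inv₀, map_add, Complex.conj_I, map_ofNat, sub_eq_add_neg]
    rwa [h4] at this
  have h5 : ((2 + Complex.I)⁻¹ : ℂ) + (2 - Complex.I)⁻¹ = ((4 / 5 : ℚ) : ℂ) := by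
    have e1 := two_add_I_ne
    have e2 := two_sub_I_ne
    push_cast
    field_simp
    linear_combination (4 : ℂ) * Complex.I_sq
  have h6 : IsIntegral ℤ (((4 / 5 : ℚ) : ℚ) : ℂ) := h5 ▸ h2.add h3
  have h7 : IsIntegral ℤ (4 / 5 : ℚ) := (isIntegral_algebraMap_iff (A := ℚ) (B := ℂ)
    (algebraMap ℚ ℂ).injective).1 h6
  obtain ⟨y, hy⟩ := IsIntegrallyClosed.isIntegral_iff.1 h7
  have h8 : (y : ℚ) = 4 / 5 := hy
  have h9 : (5 * y : ℚ) = 4 := by rw [h8]; norm_num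
  have h10 : 5 * y = 4 := by exact_mod_cast h9
  omega

theorem SS_nonempty : SS.Nonempty := by
  have h : (Ideal.span {piO} : Ideal (𝓞 KK)) ≠ ⊤ := by
    rw [Ne, Ideal.span_singleton_eq_top]
    exact not_isUnit_piO
  obtain ⟨M, hM, hle⟩ := Ideal.exists_le_maximal _ h
  have hpi : piO ∈ M := hle (Ideal.mem_span_singleton_self _)
  refine ⟨⟨M, hM.isPrime, ?_⟩, ?_⟩
  · rintro rfl
    exact piO_ne (by simpa using hpi)
  · rw [SS, Set.Finite.mem_toFinset, Set.mem_ofPred_eq, Ideal.dvd_span_singleton]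
    exact hpi

/-- the ring of `S`-integers of `ℚ(i)` as a subring of `ℂ` -/
noncomputable def RS : Subring ℂ :=
  (((SS : Set (HeightOneSpectrum (𝓞 KK))).integer KK).toSubring).map KK.subtype

theorem mem_RS {x : ℂ} : x ∈ RS ↔ ∃ y : KK, (∀ v ∉ SS, v.valuation KK y ≤ 1) ∧ (y : ℂ) = x :=
  Iff.rfl

theorem pi_mem_RS : (2 + Complex.I) ∈ RS :=
  mem_RS.2 ⟨(piO : 𝓞 KK), fun v _ => HeightOneSpectrum.valuation_le_one v piO, rfl⟩

theorem pi_inv_mem_RS : (2 + Complex.I)⁻¹ ∈ RS := by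
  refine mem_RS.2 ⟨((piO : 𝓞 KK) : KK)⁻¹, fun v hv => ?_, ?_⟩
  · rw [map_inv₀, not_mem_SS hv, inv_one]
  · simp [piO_coe]

theorem RS_subset_KK {x : ℂ} (hx : x ∈ RS) : x ∈ KK := by
  obtain ⟨y, -, rfl⟩ := mem_RS.1 hx
  exact y.2

theorem exists_pow_mul {x : ℂ} (hx : x ∈ RS) : ∃ k : ℕ, IsIntegral ℤ ((2 + Complex.I) ^ k * x) := by
  obtain ⟨y, hy, rfl⟩ := mem_RS.1 hx
  have h1 : ∀ v : HeightOneSpectrum (𝓞 KK), ∃ k : ℕ, v ∈ SS →
      v.valuation KK ((piO : 𝓞 KK) : KK) ^ k * v.valuation KK y ≤ 1 := by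
    intro v
    by_cases hv : v ∈ SS
    · by_cases h0 : v.valuation KK y = 0
      · exact ⟨0, fun _ => by rw [h0]; simp⟩
      · obtain ⟨k, hk⟩ := exists_pow_lt₀ (mem_SS.1 hv) (Units.mk0 _ h0)⁻¹
        refine ⟨k, fun _ => ?_⟩
        rw [Units.val_inv_eq_inv_val, Units.val_mk0] at hk
        calc v.valuation KK ((piO : 𝓞 KK) : KK) ^ k * v.valuation KK y
            ≤ (v.valuation KK y)⁻¹ * v.valuation KK y := by gcongr
          _ = 1 := inv_mul_cancel₀ h0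
    · exact ⟨0, fun h => absurd h hv⟩
  choose k hk using h1
  refine ⟨∑ v ∈ SS, k v, ?_⟩
  have h2 : (((piO : 𝓞 KK) : KK) ^ (∑ v ∈ SS, k v) * y) ∈ (algebraMap (𝓞 KK) KK).range := by
    apply HeightOneSpectrum.mem_integers_of_valuation_le_one
    intro v
    rw [map_mul, map_pow]
    have hle : v.valuation KK ((piO : 𝓞 KK) : KK) ≤ 1 := HeightOneSpectrum.valuation_le_one v piO
    by_cases hv : v ∈ SS
    · refine le_trans ?_ (hk v hv)
      gcongr ?_ * _
      exact pow_le_pow_right_of_le_one' hle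
        (Finset.single_le_sum (f := k) (fun _ _ => Nat.zero_le _) hv)
    · exact mul_le_one' (pow_le_one' hle _) (hy v hv)
  obtain ⟨t, ht⟩ := h2
  have h3 : IsIntegral ℤ (((piO : 𝓞 KK) : KK) ^ (∑ v ∈ SS, k v) * y) := by
    rw [← ht]
    exact RingOfIntegers.isIntegral_coe t
  have h4 := isIntegral_KK.1 h3
  simpa [piO_coe] using h4

theorem real_mem_RS {x : ℂ} (hx : x ∈ RS) (hr : x.im = 0) : ∃ n : ℤ, x = n := by
  obtain ⟨k, hk⟩ := exists_pow_mul hx
  have hc : (starRingEnd ℂ) x = x := Complex.conj_eq_iff_im.2 hr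
  have hk' : IsIntegral ℤ ((2 - Complex.I) ^ k * x) := by
    have := hk.map (starRingEnd ℂ).toIntAlgHom
    have h4 : (starRingEnd ℂ).toIntAlgHom ((2 + Complex.I) ^ k * x) = (2 - Complex.I) ^ k * x := by
      change (starRingEnd ℂ) ((2 + Complex.I) ^ k * x) = (2 - Complex.I) ^ k * x
      rw [map_mul, map_pow, map_add, Complex.conj_I, map_ofNat, sub_eq_add_neg, hc]
    rwa [h4] at this
  let p : integralClosure ℤ ℂ := ⟨2 + Complex.I, isIntegral_two_add⟩
  let q : integralClosure ℤ ℂ := ⟨2 - Complex.I, isIntegral_two_sub⟩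
  have hpq : IsCoprime p q := by
    refine ⟨q - 1, -1, ?_⟩
    apply Subtype.ext
    change ((2 - Complex.I) - 1) * (2 + Complex.I) + (-1) * (2 - Complex.I) = 1
    linear_combination -Complex.I_sq
  obtain ⟨u, v, huv⟩ := (hpq.pow (m := k) (n := k))
  have huv' : (u : ℂ) * (2 + Complex.I) ^ k + v * (2 - Complex.I) ^ k = 1 := by
    have := congrArg (fun t : integralClosure ℤ ℂ => (t : ℂ)) huv
    simpa [p, q] using this
  have hxi : IsIntegral ℤ x := by
    have : x = u * ((2 + Complex.I) ^ k * x) + v * ((2 - Complex.I) ^ k * x) := by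
      linear_combination (-x) * huv'
    rw [this]
    exact (u.2.mul hk).add (v.2.mul hk')
  obtain ⟨a, b, hab⟩ := RS_subset_KK hx
  have hb : b = 0 := by
    rw [hab] at hr
    simpa using hr
  rw [hb] at hab
  have hxa : x = ((a : ℚ) : ℂ) := by rw [hab]; simp
  rw [hxa] at hxi
  have h7 : IsIntegral ℤ a := (isIntegral_algebraMap_iff (A := ℚ) (B := ℂ)
    (algebraMap ℚ ℂ).injective).1 hxi
  obtain ⟨y, hy⟩ := IsIntegrallyClosed.isIntegral_iff.1 h7
  have h8 : (y : ℚ) = a := hy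
  exact ⟨y, by rw [hxa, ← h8]; simp⟩

end Pool.Agent.MP_1921ec_al
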