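import Pool.Agent.MP_1921ec_al.Dense

/-!
Infinitely generated Schottky groups containing translates of powers of given loxodromic elements.
-/

open Filter Topology
open scoped Pointwise

namespace Pool.Agent.MP_1921ec_al

theorem core (α β : ℂ) (hα : α ≠ 0) (hβ : β ≠ 0) {r : ℝ} (hr : 0 < r) (z : ℂˣ)
    (hz : 1 < ‖(z : ℂ)‖) : ∀ᶠ k : ℕ in atTop, ∀ c d : ℂ, (c ≠ 0 ∨ d ≠ 0) →
      r * ‖α * c + β * d‖ * ‖β‖ ≤ ‖c‖ →
      ‖((z : ℂ) ^ k)⁻¹ * d‖ < r * ‖α * ((z : ℂ) ^ k * c) + β * (((z : ℂ) ^ k)⁻¹ * d)‖ * ‖α‖ := by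
  have hA : 0 < ‖α‖ := norm_pos_iff.2 hα
  have hB : 0 < ‖β‖ := norm_pos_iff.2 hβ
  set C : ℝ := (1 / (r * ‖β‖) + ‖α‖) / ‖β‖ with hC
  have hC0 : 0 < C := by positivity
  have hz0 : 0 < ‖(z : ℂ)‖ := by linarith
  set ρ : ℕ → ℝ := fun k => (‖(z : ℂ)‖⁻¹ ^ k) ^ 2 with hρ
  have hρ0 : Tendsto ρ atTop (𝓝 0) := by
    have h1 : Tendsto (fun k : ℕ => ‖(z : ℂ)‖⁻¹ ^ k) atTop (𝓝 0) :=
      tendsto_pow_atTop_nhds_zero_of_lt_one (inv_nonneg.2 hz0.le) (inv_lt_one_of_one_lt₀ hz)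
    have := h1.pow 2
    rw [zero_pow two_ne_zero] at this
    exact this
  have hlim : Tendsto (fun k => C * ρ k - r * ‖α‖ * (‖α‖ - ‖β‖ * (C * ρ k))) atTop
      (𝓝 (C * 0 - r * ‖α‖ * (‖α‖ - ‖β‖ * (C * 0)))) :=
    (hρ0.const_mul C).sub (((hρ0.const_mul C).const_mul ‖β‖).const_sub ‖α‖ |>.const_mul (r * ‖α‖))
  have hneg : C * 0 - r * ‖α‖ * (‖α‖ - ‖β‖ * (C * 0)) < 0 := by
    have : 0 < r * ‖α‖ * ‖α‖ := by positivity
    linarith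
  filter_upwards [hlim.eventually_lt_const hneg] with k hk
  intro c d hcd hYc
  have hdC : ‖d‖ ≤ C * ‖c‖ := by
    have h1 : ‖β * d‖ ≤ ‖α * c + β * d‖ + ‖α * c‖ := by
      have : β * d = (α * c + β * d) - α * c := by ring
      calc ‖β * d‖ = ‖(α * c + β * d) - α * c‖ := by rw [← this]
        _ ≤ _ := norm_sub_le _ _
    rw [norm_mul, norm_mul α c] at h1
    have h2 : ‖α * c + β * d‖ ≤ ‖c‖ / (r * ‖β‖) := by
      rw [le_div_iff₀ (by positivity)]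
      calc ‖α * c + β * d‖ * (r * ‖β‖) = r * ‖α * c + β * d‖ * ‖β‖ := by ring
        _ ≤ ‖c‖ := hYc
    have h3 : ‖β‖ * ‖d‖ ≤ (1 / (r * ‖β‖) + ‖α‖) * ‖c‖ := by
      calc ‖β‖ * ‖d‖ ≤ ‖c‖ / (r * ‖β‖) + ‖α‖ * ‖c‖ := by linarith
        _ = _ := by ring
    rw [hC, div_mul_eq_mul_div, le_div_iff₀ hB]
    linarith
  have hc : c ≠ 0 := by
    rintro rfl
    rw [norm_zero, mul_zero] at hdC
    have : d = 0 := norm_le_zero_iff.1 hdC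
    simp [this] at hcd
  have hc0 : 0 < ‖c‖ := norm_pos_iff.2 hc
  set t : ℝ := ‖(z : ℂ)‖ ^ k with ht
  have ht0 : 0 < t := pow_pos hz0 k
  have hρt : ρ k = (t⁻¹) ^ 2 := by
    rw [hρ]
    simp only
    rw [ht, inv_pow]
  have e1 : ‖((z : ℂ) ^ k)⁻¹ * d‖ = t⁻¹ * ‖d‖ := by
    rw [norm_mul, norm_inv, norm_pow]
  have e2 : ‖(z : ℂ) ^ k * c‖ = t * ‖c‖ := by
    rw [norm_mul, norm_pow]
  have hd' : t⁻¹ * ‖d‖ ≤ C * ρ k * (t * ‖c‖) := by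
    rw [hρt]
    calc t⁻¹ * ‖d‖ ≤ t⁻¹ * (C * ‖c‖) := by gcongr
      _ = C * (t⁻¹) ^ 2 * (t * ‖c‖) := by field_simp
  have hw : (‖α‖ - ‖β‖ * (C * ρ k)) * (t * ‖c‖) ≤
      ‖α * ((z : ℂ) ^ k * c) + β * (((z : ℂ) ^ k)⁻¹ * d)‖ := by
    have h1 : ‖α * ((z : ℂ) ^ k * c)‖ ≤ ‖α * ((z : ℂ) ^ k * c) + β * (((z : ℂ) ^ k)⁻¹ * d)‖ +
        ‖β * (((z : ℂ) ^ k)⁻¹ * d)‖ := by
      have := norm_sub_le (α * ((z : ℂ) ^ k * c) + β * (((z : ℂ) ^ k)⁻¹ * d))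
        (β * (((z : ℂ) ^ k)⁻¹ * d))
      rwa [add_sub_cancel_right] at this
    rw [norm_mul α, norm_mul β, e1, e2] at h1
    have h2 : ‖β‖ * (t⁻¹ * ‖d‖) ≤ ‖β‖ * (C * ρ k * (t * ‖c‖)) := by gcongr
    linarith
  rw [e1]
  calc t⁻¹ * ‖d‖ ≤ C * ρ k * (t * ‖c‖) := hd'
    _ < r * ‖α‖ * (‖α‖ - ‖β‖ * (C * ρ k)) * (t * ‖c‖) := by
        have : 0 < t * ‖c‖ := by positivity
        apply mul_lt_mul_of_pos_right _ this
        linarith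
    _ = r * ((‖α‖ - ‖β‖ * (C * ρ k)) * (t * ‖c‖)) * ‖α‖ := by ring
    _ ≤ _ := by gcongr

/-- disc around `ζ` -/
def UU (ζ : ℂ) (r : ℝ) : Set SL2C := {g | ‖g.1 0 0 - ζ * g.1 1 0‖ < r * ‖g.1 1 0‖}

theorem disjoint_UU {ζ ξ : ℂ} {r s : ℝ} (h : r + s ≤ ‖ζ - ξ‖) : Disjoint (UU ζ r) (UU ξ s) := by
  rw [Set.disjoint_left]
  intro g hg hg'
  change ‖g.1 0 0 - ζ * g.1 1 0‖ < r * ‖g.1 1 0‖ at hg
  change ‖g.1 0 0 - ξ * g.1 1 0‖ < s * ‖g.1 1 0‖ at hg'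
  have h1 : ‖(ζ - ξ) * g.1 1 0‖ ≤ ‖g.1 0 0 - ξ * g.1 1 0‖ + ‖g.1 0 0 - ζ * g.1 1 0‖ := by
    have : (ζ - ξ) * g.1 1 0 = (g.1 0 0 - ξ * g.1 1 0) - (g.1 0 0 - ζ * g.1 1 0) := by ring
    rw [this]
    exact norm_sub_le _ _
  rw [norm_mul] at h1
  nlinarith [norm_nonneg (g.1 1 0)]

theorem UU_nonempty (ζ : ℂ) {r : ℝ} (hr : 0 < r) : (UU ζ r).Nonempty := by
  refine ⟨⟨!![ζ, -1; 1, 0], by rw [Matrix.det_fin_two_of]; ring⟩, ?_⟩
  change ‖ζ - ζ * 1‖ < r * ‖(1 : ℂ)‖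
  simpa using hr

/-- attracting fixed point -/
noncomputable def att (P : SL2C) : ℂ := P.1 0 0 / P.1 1 0

/-- repelling fixed point -/
noncomputable def rep' (P : SL2C) : ℂ := P.1 0 1 / P.1 1 1

theorem mem_UU_att {P g : SL2C} {r : ℝ} (h0 : P.1 1 0 ≠ 0) :
    g ∈ UU (att P) r ↔ ‖(P⁻¹ * g).1 1 0‖ < r * ‖g.1 1 0‖ * ‖P.1 1 0‖ := by
  have h1 : (P⁻¹ * g).1 1 0 = -(P.1 1 0 * (g.1 0 0 - att P * g.1 1 0)) := by
    rw [val_mul, inv_val]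
    simp only [Matrix.mul_apply, Fin.sum_univ_two, att]
    simp
    field_simp
    ring
  rw [h1, norm_neg, norm_mul, mul_comm (‖P.1 1 0‖)]
  exact (mul_lt_mul_iff_left₀ (norm_pos_iff.2 h0)).symm

theorem mem_UU_rep {P g : SL2C} {r : ℝ} (h1 : P.1 1 1 ≠ 0) :
    g ∈ UU (rep' P) r ↔ ‖(P⁻¹ * g).1 0 0‖ < r * ‖g.1 1 0‖ * ‖P.1 1 1‖ := by
  have h2 : (P⁻¹ * g).1 0 0 = P.1 1 1 * (g.1 0 0 - rep' P * g.1 1 0) := by
    rw [val_mul, inv_val]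
    simp only [Matrix.mul_apply, Fin.sum_univ_two, rep']
    simp
    field_simp
    ring
  rw [h2, norm_mul, mul_comm (‖P.1 1 1‖)]
  exact (mul_lt_mul_iff_left₀ (norm_pos_iff.2 h1)).symm

theorem pingpong_step {P : SL2C} (h0 : P.1 1 0 ≠ 0) (h1 : P.1 1 1 ≠ 0) {r : ℝ} (hr : 0 < r)
    {z : ℂˣ} (hz : 1 < ‖(z : ℂ)‖) : ∀ᶠ k : ℕ in atTop,
      (P * dg (z ^ k) * P⁻¹) • (UU (rep' P) r)ᶜ ⊆ UU (att P) r ∧
      (P * dg (z ^ k) * P⁻¹)⁻¹ • (UU (att P) r)ᶜ ⊆ UU (rep' P) r := by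
  filter_upwards [core (P.1 1 0) (P.1 1 1) h0 h1 hr z hz, core (P.1 1 1) (P.1 1 0) h1 h0 hr z hz]
    with k hk1 hk2
  have hcol : ∀ g : SL2C, g.1 1 0 = P.1 1 0 * (P⁻¹ * g).1 0 0 + P.1 1 1 * (P⁻¹ * g).1 1 0 := by
    intro g
    have : g = P * (P⁻¹ * g) := by group
    conv_lhs => rw [this]
    rw [val_mul, Matrix.mul_apply, Fin.sum_univ_two]
  have hne : ∀ g : SL2C, (P⁻¹ * g).1 0 0 ≠ 0 ∨ (P⁻¹ * g).1 1 0 ≠ 0 := by
    intro g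
    by_contra hcon
    push Not at hcon
    have := det_eq (P⁻¹ * g)
    rw [hcon.1, hcon.2] at this
    simp at this
  constructor
  · rintro _ ⟨g, hg, rfl⟩
    rw [Set.mem_compl_iff, mem_UU_rep h1, not_lt] at hg
    rw [mem_UU_att h0]
    simp only [smul_eq_mul]
    have e : P⁻¹ * (P * dg (z ^ k) * P⁻¹ * g) = dg (z ^ k) * (P⁻¹ * g) := by group
    have ec0 : (P⁻¹ * (P * dg (z ^ k) * P⁻¹ * g)).1 0 0 = (z : ℂ) ^ k * (P⁻¹ * g).1 0 0 := by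
      rw [e, val_mul, dg_val, Matrix.mul_apply, Fin.sum_univ_two]
      simp
    have ec1 : (P⁻¹ * (P * dg (z ^ k) * P⁻¹ * g)).1 1 0 = ((z : ℂ) ^ k)⁻¹ * (P⁻¹ * g).1 1 0 := by
      rw [e, val_mul, dg_val, Matrix.mul_apply, Fin.sum_univ_two]
      simp
    rw [hcol (P * dg (z ^ k) * P⁻¹ * g), ec0, ec1]
    apply hk1 _ _ (hne g)
    rw [← hcol]
    exact hg
  · rintro _ ⟨g, hg, rfl⟩
    rw [Set.mem_compl_iff, mem_UU_att h0, not_lt] at hg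
    rw [mem_UU_rep h1]
    simp only [smul_eq_mul]
    have e : P⁻¹ * ((P * dg (z ^ k) * P⁻¹)⁻¹ * g) = dg (z ^ k)⁻¹ * (P⁻¹ * g) := by
      rw [dg_inv]
      group
    have ec0 : (P⁻¹ * ((P * dg (z ^ k) * P⁻¹)⁻¹ * g)).1 0 0 =
        ((z : ℂ) ^ k)⁻¹ * (P⁻¹ * g).1 0 0 := by
      rw [e, val_mul, dg_val, Matrix.mul_apply, Fin.sum_univ_two]
      simp
    have ec1 : (P⁻¹ * ((P * dg (z ^ k) * P⁻¹)⁻¹ * g)).1 1 0 = (z : ℂ) ^ k * (P⁻¹ * g).1 1 0 := by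
      rw [e, val_mul, dg_val, Matrix.mul_apply, Fin.sum_univ_two]
      simp
    rw [hcol ((P * dg (z ^ k) * P⁻¹)⁻¹ * g), ec0, ec1, add_comm]
    apply hk2 _ _ (hne g).symm
    rw [add_comm, ← hcol]
    exact hg

/-- translation by `b` -/
noncomputable def TT (b : ℤ) : SL2C := ⟨!![1, (b : ℂ); 0, 1], by simp [Matrix.det_fin_two_of]⟩

theorem TT_mul_val (b : ℤ) (P : SL2C) : (TT b * P).1 =
    !![P.1 0 0 + b * P.1 1 0, P.1 0 1 + b * P.1 1 1; P.1 1 0, P.1 1 1] := by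
  rw [val_mul]
  have : (TT b).1 = !![1, (b : ℂ); 0, 1] := rfl
  rw [this]
  ext i j
  fin_cases i <;> fin_cases j <;> simp [Matrix.mul_apply, Fin.sum_univ_two]

theorem exists_schottky (P : ℕ → SL2C) (z : ℕ → ℂˣ) (hz : ∀ n, 1 < ‖(z n : ℂ)‖)
    (h0 : ∀ n, (P n).1 1 0 ≠ 0) (h1 : ∀ n, (P n).1 1 1 ≠ 0) :
    ∃ (b : ℕ → ℤ) (k : ℕ → ℕ), (∀ n, 0 < k n) ∧
      Function.Injective (FreeGroup.lift fun n =>
        (TT (b n) * P n) * dg (z n ^ k n) * (TT (b n) * P n)⁻¹) ∧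
      ∀ i j, ((TT (b 0) * P 0)⁻¹ * (TT (b 1) * P 1)).1 i j ≠ 0 := by
  -- bounds
  have hc : ∀ n, ∃ c : ℕ, ‖att (P n)‖ + 1 ≤ c ∧ ‖rep' (P n)‖ + 1 ≤ c := by
    intro n
    obtain ⟨c, hc⟩ := exists_nat_ge (max (‖att (P n)‖ + 1) (‖rep' (P n)‖ + 1))
    exact ⟨c, (le_max_left _ _).trans hc, (le_max_right _ _).trans hc⟩
  choose c hc1 hc2 using hc
  set b : ℕ → ℕ := fun n => ∑ j ∈ Finset.range n, 2 * c j + c n with hb
  have hbsep : ∀ m n, m < n → (b m : ℝ) + c m + c n ≤ b n := by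
    intro m n hmn
    have h2 : ∑ j ∈ Finset.range (m + 1), 2 * c j ≤ ∑ j ∈ Finset.range n, 2 * c j :=
      Finset.sum_le_sum_of_subset (Finset.range_mono hmn)
    rw [Finset.sum_range_succ] at h2
    have h3 : b m + c m + c n ≤ b n := by
      simp only [hb]
      omega
    exact_mod_cast h3
  set Q : ℕ → SL2C := fun n => TT (b n) * P n with hQ
  have hQ0 : ∀ n, (Q n).1 1 0 ≠ 0 := fun n => by
    simp only [hQ]
    rw [TT_mul_val]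
    simpa using h0 n
  have hQ1 : ∀ n, (Q n).1 1 1 ≠ 0 := fun n => by
    simp only [hQ]
    rw [TT_mul_val]
    simpa using h1 n
  have hatt : ∀ n, att (Q n) = att (P n) + b n := fun n => by
    simp only [hQ, att]
    rw [TT_mul_val]
    have := h0 n
    simp
    field_simp
  have hrep : ∀ n, rep' (Q n) = rep' (P n) + b n := fun n => by
    simp only [hQ, rep']
    rw [TT_mul_val]
    have := h1 n
    simp
    field_simp
  have hdiff : ∀ n, att (Q n) - rep' (Q n) ≠ 0 := by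
    intro n h
    have hd := det_eq (Q n)
    have e0 := hQ0 n
    have e1 := hQ1 n
    rw [att, rep', div_sub_div _ _ e0 e1, div_eq_zero_iff] at h
    rcases h with h | h
    · have : (0 : ℂ) = 1 := by
        rw [← hd]
        linear_combination -h
      exact zero_ne_one this
    · exact mul_ne_zero e0 e1 h
  set r : ℕ → ℝ := fun n => min 1 (‖att (Q n) - rep' (Q n)‖ / 2) with hr
  have hr0 : ∀ n, 0 < r n := fun n => by
    have := norm_pos_iff.2 (hdiff n)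
    simp only [hr]
    positivity
  have hr1 : ∀ n, r n ≤ 1 := fun n => min_le_left _ _
  have hr2 : ∀ n, r n ≤ ‖att (Q n) - rep' (Q n)‖ / 2 := fun n => min_le_right _ _
  have hsep : ∀ m n, m < n → ∀ ζ ξ : ℂ, ‖ζ‖ + 1 ≤ c m → ‖ξ‖ + 1 ≤ c n →
      r m + r n ≤ ‖(ξ + b n) - (ζ + b m)‖ := by
    intro m n hmn ζ ξ hζ hξ
    have h3 := Complex.abs_re_le_norm ((ξ + b n) - (ζ + b m))
    have h4 : ((ξ + b n) - (ζ + b m)).re = ξ.re - ζ.re + (b n - b m) := by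
      simp
      ring
    have h5 := hbsep m n hmn
    have h6 := (abs_le.1 (Complex.abs_re_le_norm ζ)).2
    have h7 := (abs_le.1 (Complex.abs_re_le_norm ξ)).1
    have h8 := le_abs_self ((ξ + b n) - (ζ + b m)).re
    rw [h4] at h8 h3
    linarith [hr1 m, hr1 n]
  have hsep' : ∀ m n, m ≠ n → ∀ ζ ξ : ℂ, ‖ζ‖ + 1 ≤ c m → ‖ξ‖ + 1 ≤ c n →
      r m + r n ≤ ‖(ζ + b m) - (ξ + b n)‖ := by
    intro m n hmn ζ ξ hζ hξ
    rcases lt_or_gt_of_ne hmn with h | h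
    · rw [norm_sub_rev]
      exact hsep m n h ζ ξ hζ hξ
    · rw [add_comm]
      exact hsep n m h ξ ζ hξ hζ
  have hk : ∀ n, ∃ k : ℕ, 0 < k ∧ ((Q n * dg (z n ^ k) * (Q n)⁻¹) • (UU (rep' (Q n)) (r n))ᶜ ⊆
      UU (att (Q n)) (r n) ∧ (Q n * dg (z n ^ k) * (Q n)⁻¹)⁻¹ • (UU (att (Q n)) (r n))ᶜ ⊆
      UU (rep' (Q n)) (r n)) := by
    intro n
    exact ((eventually_gt_atTop 0).and (pingpong_step (hQ0 n) (hQ1 n) (hr0 n) (hz n))).exists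
  choose k hk0 hk1 hk2 using hk
  refine ⟨fun n => (b n : ℤ), k, hk0, ?_, ?_⟩
  · have := FreeGroup.injective_lift_of_ping_pong (α := SL2C)
      (fun n => Q n * dg (z n ^ k n) * (Q n)⁻¹)
      (fun n => UU (att (Q n)) (r n)) (fun n => UU (rep' (Q n)) (r n))
      (fun n => UU_nonempty _ (hr0 n)) ?_ ?_ ?_ hk1 hk2
    · exact this
    · intro m n hmn
      apply disjoint_UU
      rw [hatt, hatt]
      exact hsep' m n hmn _ _ (hc1 m) (hc1 n)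
    · intro m n hmn
      apply disjoint_UU
      rw [hrep, hrep]
      exact hsep' m n hmn _ _ (hc2 m) (hc2 n)
    · intro m n
      apply disjoint_UU
      rcases eq_or_ne m n with rfl | hmn
      · linarith [hr2 m]
      · rw [hatt, hrep]
        exact hsep' m n hmn _ _ (hc1 m) (hc2 n)
  · have h01 : (0 : ℕ) ≠ 1 := zero_ne_one
    have hne : ∀ ζ ξ : ℂ, ‖ζ‖ + 1 ≤ c 0 → ‖ξ‖ + 1 ≤ c 1 → (ζ + b 0) - (ξ + b 1) ≠ 0 := by
      intro ζ ξ hζ hξ h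
      have := hsep' 0 1 h01 ζ ξ hζ hξ
      rw [h, norm_zero] at this
      linarith [hr0 0, hr0 1]
    have e0 := hQ0 0
    have e1 := hQ1 0
    have f0 := hQ0 1
    have f1 := hQ1 1
    have g1 := hne _ _ (hc1 0) (hc1 1)
    have g2 := hne _ _ (hc1 0) (hc2 1)
    have g3 := hne _ _ (hc2 0) (hc1 1)
    have g4 := hne _ _ (hc2 0) (hc2 1)
    rw [← hatt, ← hatt] at g1
    rw [← hatt, ← hrep] at g2
    rw [← hrep, ← hatt] at g3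
    rw [← hrep, ← hrep] at g4
    unfold att at g1 g2 g3
    unfold rep' at g2 g3 g4
    rw [div_sub_div _ _ e0 f0, div_ne_zero_iff] at g1
    rw [div_sub_div _ _ e0 f1, div_ne_zero_iff] at g2
    rw [div_sub_div _ _ e1 f0, div_ne_zero_iff] at g3
    rw [div_sub_div _ _ e1 f1, div_ne_zero_iff] at g4
    intro i j
    change ((Q 0)⁻¹ * Q 1).1 i j ≠ 0
    rw [val_mul, inv_val]
    fin_cases i <;> fin_cases j
    · intro h
      apply g3.1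
      simp [Matrix.mul_apply, Fin.sum_univ_two] at h
      linear_combination -h
    · intro h
      apply g4.1
      simp [Matrix.mul_apply, Fin.sum_univ_two] at h
      linear_combination -h
    · intro h
      apply g1.1
      simp [Matrix.mul_apply, Fin.sum_univ_two] at h
      linear_combination h
    · intro h
      apply g2.1
      simp [Matrix.mul_apply, Fin.sum_univ_two] at h
      linear_combination h

end Pool.Agent.MP_1921ec_al
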